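import Pool.Agent.Helper427.FPF.Defs
import Pool.Agent.Helper427.FPM.Defs
import Pool.Agent.Helper427.FPM.P_sm_basic
import Pool.Agent.Helper427.FPM.P_E_sm
import Pool.Agent.Helper427.FPM.P_E_alg

open scoped Quaternion ContDiff
open MeasureTheory FPM

namespace FPT

/-- the algebra of smooth functions on `M = S³ × S³` -/
def SmA : Subalgebra ℝ (M → ℝ) where
  carrier := {f | Sm f}
  mul_mem' := fun {f g} hf hg => sm_basic.2.2 f g hf hg
  add_mem' := fun {f g} hf hg => sm_basic.2.1 f g hf hg
  algebraMap_mem' := fun c => sm_basic.1 c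

/-- value at a point -/
noncomputable def ev (x : M) : SmA →ₐ[ℝ] ℝ := (Pi.evalAlgHom ℝ (fun _ : M => ℝ) x).comp SmA.val

theorem ev_apply (x : M) (f : SmA) : ev x f = f.1 x := rfl

theorem ext_ev {f g : SmA} (h : ∀ x, ev x f = ev x g) : f = g := Subtype.ext (funext h)

/-- the vector field `E i` as a derivation of `SmA` -/
noncomputable def ED (i : Fin 6) : Derivation ℝ SmA SmA :=
  Derivation.mk'
    { toFun := fun f => ⟨E i f.1, E_sm i f.1 f.2⟩
      map_add' := fun f g => Subtype.ext ((E_alg i).2.1 f.1 g.1 f.2 g.2)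
      map_smul' := fun c f => Subtype.ext (by
        have h := (E_alg i).2.2 (fun _ => c) f.1 (sm_basic.1 c) f.2
        have h0 := (E_alg i).1 c
        funext x
        have h1 := congrFun h x
        rw [h0] at h1
        have h2 : E i (fun x => c * f.1 x) x = c * E i f.1 x := by simpa using h1
        exact h2) }
    (fun f g => Subtype.ext (by
      have h := (E_alg i).2.2 f.1 g.1 f.2 g.2
      exact h))

theorem ev_ED (x : M) (i : Fin 6) (f : SmA) : ev x (ED i f) = E i f.1 x := rfl

/-- constants in `SmA` -/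
noncomputable def cs (c : ℝ) : SmA := algebraMap ℝ SmA c

/-- A Riemannian metric on `S³ × S³` (components `G i j` in the global frame `E i`) together with a
smooth global orthonormal frame `e_α = ∑ i, a α i • E i`. -/
structure Geo where
  G : Fin 6 → Fin 6 → SmA
  a : Fin 6 → Fin 6 → SmA
  pos : ∀ x, (Matrix.of fun i j => ev x (G i j)).PosDef
  on : ∀ α β, ∑ i, ∑ j, a α i * G i j * a β j = if α = β then 1 else 0

variable (g : Geo)

/-- the frame fields -/
noncomputable def eD (α : Fin 6) : Derivation ℝ SmA SmA := ∑ i, g.a α i • ED i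

/-- components of the bracket `[e_α, e_β]` in the frame `E` -/
noncomputable def br (α β k : Fin 6) : SmA :=
  eD g α (g.a β k) - eD g β (g.a α k) + ∑ i, ∑ j, g.a α i * g.a β j * cs (cst i j k)

/-- `⟨[e_α, e_β], e_γ⟩` -/
noncomputable def Cc (α β γ : Fin 6) : SmA := ∑ k, ∑ l, br g α β k * g.G k l * g.a γ l

/-- Levi-Civita connection coefficients `⟨∇_{e_α} e_β, e_γ⟩` (Koszul formula) -/
noncomputable def Gam (α β γ : Fin 6) : SmA :=
  (1/2 : ℝ) • (Cc g α β γ - Cc g β γ α + Cc g γ α β)

/-- components of `E i` in the frame `e` -/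
noncomputable def bb (i c : Fin 6) : SmA := ∑ l, g.G i l * g.a c l

end FPT
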