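import Pool.Agent.Helper427.FPF.Defs
import Pool.Agent.Helper427.FPM.Defs
import Pool.Agent.Helper427.FPM.P_sm_basic
import Pool.Agent.Helper427.FPM.P_E_sm
import Pool.Agent.Helper427.FPM.P_E_alg
import Pool.Agent.Helper427.FPT.Defs

open scoped Quaternion ContDiff
open MeasureTheory FPM Filter Topology
namespace FPT



theorem bb_inv (g : Geo) : (∀ i j, ∑ c, bb g i c * g.a c j = if i = j then 1 else 0) ∧
    (∀ c d, ∑ i, g.a c i * bb g i d = if c = d then 1 else 0) := by
  have h2 : ∀ c d, ∑ i, g.a c i * bb g i d = if c = d then 1 else 0 := by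
    intro c d
    rw [← g.on c d]
    apply Finset.sum_congr rfl
    intro i _
    unfold bb
    rw [Finset.mul_sum]
    apply Finset.sum_congr rfl
    intro l _
    ring
  refine ⟨?_, h2⟩
  have hm : (Matrix.of fun c i => g.a c i : Matrix (Fin 6) (Fin 6) SmA)
      * (Matrix.of fun i c => bb g i c) = 1 := by
    ext1 c d
    rw [Matrix.mul_apply, Matrix.one_apply]
    exact h2 c d
  have hm2 := mul_eq_one_comm.mp hm
  intro i j
  have h3 := congrFun (congrFun hm2 i) j
  rw [Matrix.mul_apply, Matrix.one_apply] at h3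
  exact h3

end FPT
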