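import Pool.Agent.Helper427.FPF.Defs
import Pool.Agent.Helper427.FPM.Defs
import Pool.Agent.Helper427.FPM.P_sm_basic
import Pool.Agent.Helper427.FPM.P_E_sm
import Pool.Agent.Helper427.FPM.P_E_alg
import Pool.Agent.Helper427.FPT.Defs
import Pool.Agent.Helper427.FPT.P_bb_inv

open scoped Quaternion ContDiff
open MeasureTheory FPM Filter Topology
namespace FPT



set_option synthInstance.maxHeartbeats 400000 in
theorem br_Cc_dec : ∀ i j k : Fin 6,
    ((j, i, k) ∈ ([(0,1,2), (1,2,0), (2,0,1), (3,4,5), (4,5,3), (5,3,4)] :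
      List (Fin 6 × Fin 6 × Fin 6)) ↔ (i, j, k) ∈ ([(1,0,2), (2,1,0), (0,2,1), (4,3,5), (5,4,3),
        (3,5,4)] : List (Fin 6 × Fin 6 × Fin 6))) ∧
    ¬ ((i, j, k) ∈ ([(0,1,2), (1,2,0), (2,0,1), (3,4,5), (4,5,3), (5,3,4)] :
      List (Fin 6 × Fin 6 × Fin 6)) ∧ (i, j, k) ∈ ([(1,0,2), (2,1,0), (0,2,1), (4,3,5), (5,4,3),
        (3,5,4)] : List (Fin 6 × Fin 6 × Fin 6))) := by
  intro i j k
  fin_cases i <;> fin_cases j <;> fin_cases k <;> decide

theorem br_Cc_cst (i j k : Fin 6) : cst j i k = - cst i j k := by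
  have h1 := br_Cc_dec i j k
  have h2 := br_Cc_dec j i k
  unfold cst
  simp only [h1.1, ← h2.1]
  have h3 := h1.2
  split_ifs with a b c
  · exact absurd ⟨b, a⟩ h3
  · norm_num
  · norm_num
  · norm_num

theorem br_Cc_br (g : Geo) (α β k : Fin 6) : br g α β k = - br g β α k := by
  unfold br
  have h1 : ∑ i, ∑ j, g.a β i * g.a α j * cs (cst i j k) =
      - ∑ i, ∑ j, g.a α i * g.a β j * cs (cst i j k) := by
    rw [Finset.sum_comm, ← Finset.sum_neg_distrib]
    apply Finset.sum_congr rfl
    intro i _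
    rw [← Finset.sum_neg_distrib]
    apply Finset.sum_congr rfl
    intro j _
    rw [br_Cc_cst i j k]
    have h2 : cs (- cst i j k) = - cs (cst i j k) := by
      unfold cs
      rw [map_neg]
    rw [h2]
    ring
  rw [h1]
  ring

theorem br_Cc_two (g : Geo) (α β c : Fin 6) : Cc g α β c = ∑ k, br g α β k * bb g k c := by
  unfold Cc bb
  apply Finset.sum_congr rfl
  intro k _
  rw [Finset.mul_sum]
  apply Finset.sum_congr rfl
  intro l _
  ring

theorem br_Cc (g : Geo) : (∀ α β k, ∑ c, Cc g α β c * g.a c k = br g α β k) ∧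
    (∀ α β c, Cc g α β c = ∑ k, br g α β k * bb g k c) ∧
    (∀ α β c, Cc g α β c = - Cc g β α c) := by
  refine ⟨?_, br_Cc_two g, ?_⟩
  · intro α β k
    calc ∑ c, Cc g α β c * g.a c k = ∑ c, ∑ m, br g α β m * (bb g m c * g.a c k) := by
          apply Finset.sum_congr rfl
          intro c _
          rw [br_Cc_two, Finset.sum_mul]
          apply Finset.sum_congr rfl
          intro m _
          ring
      _ = ∑ m, br g α β m * ∑ c, bb g m c * g.a c k := by
          rw [Finset.sum_comm]
          apply Finset.sum_congr rfl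
          intro m _
          rw [Finset.mul_sum]
      _ = ∑ m, br g α β m * (if m = k then 1 else 0) := by
          apply Finset.sum_congr rfl
          intro m _
          rw [(bb_inv g).1]
      _ = br g α β k := by
          simp
  · intro α β c
    rw [br_Cc_two, br_Cc_two, ← Finset.sum_neg_distrib]
    apply Finset.sum_congr rfl
    intro k _
    rw [br_Cc_br]
    ring

end FPT
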