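import Pool.Agent.Helper427.FPF.Defs
import Pool.Agent.Helper427.FPM.Defs
import Pool.Agent.Helper427.FPM.P_sm_basic
import Pool.Agent.Helper427.FPM.P_E_sm
import Pool.Agent.Helper427.FPM.P_E_alg
import Pool.Agent.Helper427.FPT.Defs
import Pool.Agent.Helper427.FPT.P_br_Cc

open scoped Quaternion ContDiff
open MeasureTheory FPM Filter Topology
namespace FPT



theorem Gam_anti (g : Geo) (a b c : Fin 6) : Gam g a b c = - Gam g a c b := by
  have h1 := (br_Cc g).2.2 c a b
  have h2 := (br_Cc g).2.2 b c a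
  have h3 := (br_Cc g).2.2 a b c
  unfold Gam
  rw [← smul_neg]
  congr 1
  rw [h1, h2, h3]
  ring

end FPT
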