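import Pool.Agent.Helper427.FPF.Defs
import Pool.Agent.Helper427.FPM.Defs
import Pool.Agent.Helper427.FPM.P_sm_basic
import Pool.Agent.Helper427.FPM.P_E_sm
import Pool.Agent.Helper427.FPM.P_E_alg
import Pool.Agent.Helper427.FPT.Defs
import Pool.Agent.Helper427.FPM.P_E_ind
import Pool.Agent.Helper427.FPT.P_bb_inv

open scoped Quaternion ContDiff
open MeasureTheory FPM Filter Topology
namespace FPT



theorem Gam_ind (g : Geo) (k : Fin 6 → SmA) (h : ∀ f, ∑ d, k d * eD g d f = 0) : k = 0 := by
  have h5 : ∀ (d : Fin 6) (f : SmA), eD g d f = ∑ i, g.a d i * ED i f := by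
    intro d f
    unfold eD
    have h6 : (Derivation.coeFnAddMonoidHom (∑ i, g.a d i • ED i) : SmA → SmA) =
        ∑ i, (Derivation.coeFnAddMonoidHom (g.a d i • ED i) : SmA → SmA) := map_sum _ _ _
    have h7 := congrFun h6 f
    rw [Finset.sum_apply] at h7
    exact h7
  have h1 : ∀ i, ∑ d, k d * g.a d i = 0 := by
    intro i
    apply ext_ev
    intro x
    have h2 := E_ind x (fun i => ev x (∑ d, k d * g.a d i)) (by
      intro f hf
      have h3 := congrArg (ev x) (h ⟨f, hf⟩)
      rw [map_sum, map_zero] at h3
      rw [← h3]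
      have h4 : ∀ d, ev x (k d * eD g d ⟨f, hf⟩) =
          ∑ i, ev x (k d) * ev x (g.a d i) * E i f x := by
        intro d
        rw [h5, map_mul, map_sum, Finset.mul_sum]
        refine Finset.sum_congr rfl fun i _ => ?_
        rw [map_mul, ev_ED, mul_assoc]
      simp only [h4]
      rw [Finset.sum_comm]
      refine Finset.sum_congr rfl fun i _ => ?_
      rw [map_sum, Finset.sum_mul]
      refine Finset.sum_congr rfl fun d _ => ?_
      rw [map_mul])
    have h8 := congrFun h2 i
    rw [map_zero]
    exact h8
  funext c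
  have h9 : k c = ∑ i, (∑ d, k d * g.a d i) * bb g i c := by
    calc k c = ∑ d, k d * (if d = c then 1 else 0) := by
          simp
      _ = ∑ d, k d * ∑ i, g.a d i * bb g i c := by
          refine Finset.sum_congr rfl fun d _ => ?_
          rw [(bb_inv g).2 d c]
      _ = ∑ d, ∑ i, k d * g.a d i * bb g i c := by
          refine Finset.sum_congr rfl fun d _ => ?_
          rw [Finset.mul_sum]
          refine Finset.sum_congr rfl fun i _ => ?_
          rw [mul_assoc]
      _ = ∑ i, (∑ d, k d * g.a d i) * bb g i c := by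
          rw [Finset.sum_comm]
          refine Finset.sum_congr rfl fun i _ => ?_
          rw [Finset.sum_mul]
  rw [h9]
  simp [h1]

end FPT
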