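import Pool.Agent.Helper427.FPF.Defs
import Pool.Agent.Helper427.FPM.Defs
import Pool.Agent.Helper427.FPM.P_sm_basic
import Pool.Agent.Helper427.FPM.P_E_sm
import Pool.Agent.Helper427.FPM.P_E_alg
import Pool.Agent.Helper427.FPT.Defs
import Pool.Agent.Helper427.FPT.P_br_Cc

open scoped Quaternion ContDiff
open MeasureTheory FPM Filter Topology
namespace FPT



theorem Gam_sub (g : Geo) (a b c : Fin 6) : Gam g a b c - Gam g b a c = Cc g a b c := by
  have h := (br_Cc g).2.2
  unfold Gam
  rw [h b a c, h a c b, h c b a]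
  module

end FPT
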