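import Pool.Agent.Helper427.FPF.Defs
import Pool.Agent.Helper427.FPM.Defs
import Pool.Agent.Helper427.FPM.P_sm_basic
import Pool.Agent.Helper427.FPM.P_E_sm
import Pool.Agent.Helper427.FPM.P_E_alg
import Pool.Agent.Helper427.FPT.Defs
import Pool.Agent.Helper427.FPT.P_bb_inv

open scoped Quaternion ContDiff
open MeasureTheory FPM Filter Topology
namespace FPT



theorem bb_eD (g : Geo) (i : Fin 6) (f : SmA) : ∑ c, bb g i c * eD g c f = ED i f := by
  have h1 : ∀ c, eD g c f = ∑ j, g.a c j * ED j f := by
    intro c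
    unfold eD
    have h3 := congrFun (map_sum Derivation.coeFnAddMonoidHom (fun i => g.a c i • ED i) Finset.univ) f
    rw [Finset.sum_apply] at h3
    exact h3
  have h2 : ∑ c, bb g i c * eD g c f = ∑ j, (∑ c, bb g i c * g.a c j) * ED j f := by
    simp only [h1, Finset.mul_sum, Finset.sum_mul]
    rw [Finset.sum_comm]
    refine Finset.sum_congr rfl fun j _ => Finset.sum_congr rfl fun c _ => ?_
    ring
  rw [h2]
  simp only [(bb_inv g).1, ite_mul, one_mul, zero_mul, Finset.sum_ite_eq, Finset.mem_univ, if_true]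

end FPT
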