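import Pool.Agent.Helper427.FPF.Defs
import Pool.Agent.Helper427.FPM.Defs
import Pool.Agent.Helper427.FPM.P_sm_basic
import Pool.Agent.Helper427.FPM.P_E_sm
import Pool.Agent.Helper427.FPM.P_E_alg
import Pool.Agent.Helper427.FPT.Defs
import Pool.Agent.Helper427.FPM.P_E_comm
import Pool.Agent.Helper427.FPT.P_br_Cc
import Pool.Agent.Helper427.FPT.P_bb_eD
import Pool.Agent.Helper427.FPT.P_Gam_sub

open scoped Quaternion ContDiff
open MeasureTheory FPM Filter Topology
namespace FPT



theorem Gam_tors_eD (g : Geo) (α : Fin 6) (f : SmA) : eD g α f = ∑ i, g.a α i * ED i f := by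
  unfold eD
  have h : ∀ (s : Finset (Fin 6)), (∑ i ∈ s, g.a α i • ED i) f = ∑ i ∈ s, g.a α i * ED i f := by
    intro s
    classical
    induction s using Finset.induction_on with
    | empty => simp
    | insert i s hi ih =>
      rw [Finset.sum_insert hi, Finset.sum_insert hi, Derivation.add_apply, ih]
      rfl
  exact h Finset.univ

theorem Gam_tors_comm (i j : Fin 6) (f : SmA) :
    ED i (ED j f) - ED j (ED i f) = ∑ k, cs (cst i j k) * ED k f := by
  apply ext_ev
  intro x
  rw [map_sub, map_sum]
  have h1 : ∀ k, ev x (cs (cst i j k) * ED k f) = cst i j k * E k f.1 x := by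
    intro k
    rw [map_mul]
    rfl
  simp only [h1]
  exact E_comm i j f.1 f.2 x

theorem Gam_tors_two (g : Geo) (a b : Fin 6) (f : SmA) : eD g a (eD g b f) =
    ∑ k, eD g a (g.a b k) * ED k f + ∑ i, ∑ j, g.a a i * g.a b j * ED i (ED j f) := by
  rw [Gam_tors_eD g b f, map_sum]
  have h1 : ∀ j, eD g a (g.a b j * ED j f) =
      eD g a (g.a b j) * ED j f + ∑ i, g.a a i * g.a b j * ED i (ED j f) := by
    intro j
    rw [Derivation.leibniz, Gam_tors_eD g a (ED j f), smul_eq_mul, smul_eq_mul, add_comm,
      mul_comm (ED j f), Finset.mul_sum]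
    congr 1
    apply Finset.sum_congr rfl
    intro i _
    ring
  simp only [h1]
  rw [Finset.sum_add_distrib]
  congr 1
  exact Finset.sum_comm

theorem Gam_tors (g : Geo) (a b : Fin 6) (f : SmA) :
    eD g a (eD g b f) - eD g b (eD g a f) = ∑ c, (Gam g a b c - Gam g b a c) * eD g c f := by
  have hR : ∑ c, (Gam g a b c - Gam g b a c) * eD g c f = ∑ k, br g a b k * ED k f := by
    have h1 : ∀ c, (Gam g a b c - Gam g b a c) * eD g c f =
        ∑ k, Cc g a b c * g.a c k * ED k f := by
      intro c
      rw [Gam_sub, Gam_tors_eD g c f, Finset.mul_sum]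
      apply Finset.sum_congr rfl
      intro k _
      ring
    simp only [h1]
    rw [Finset.sum_comm]
    apply Finset.sum_congr rfl
    intro k _
    rw [← Finset.sum_mul, (br_Cc g).1 a b k]
  rw [hR, Gam_tors_two g a b f, Gam_tors_two g b a f]
  have h2 : ∑ i, ∑ j, g.a b i * g.a a j * ED i (ED j f) =
      ∑ i, ∑ j, g.a a i * g.a b j * ED j (ED i f) := by
    rw [Finset.sum_comm]
    refine Finset.sum_congr rfl fun i _ => Finset.sum_congr rfl fun j _ => ?_
    ring
  have h3 : ∑ i, ∑ j, g.a a i * g.a b j * ED i (ED j f) -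
      ∑ i, ∑ j, g.a a i * g.a b j * ED j (ED i f) =
      ∑ k, (∑ i, ∑ j, g.a a i * g.a b j * cs (cst i j k)) * ED k f := by
    rw [← Finset.sum_sub_distrib]
    simp only [← Finset.sum_sub_distrib]
    have h4 : ∀ i j, g.a a i * g.a b j * ED i (ED j f) - g.a a i * g.a b j * ED j (ED i f) =
        ∑ k, g.a a i * g.a b j * cs (cst i j k) * ED k f := by
      intro i j
      rw [← mul_sub, Gam_tors_comm, Finset.mul_sum]
      apply Finset.sum_congr rfl
      intro k _
      ring
    simp only [h4]
    simp only [Finset.sum_mul]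
    rw [Finset.sum_comm' (s := Finset.univ) (t := fun _ => Finset.univ) (t' := Finset.univ)
      (s' := fun _ => Finset.univ) (by simp)]
    rw [Finset.sum_congr rfl fun j _ => Finset.sum_comm]
    rw [Finset.sum_comm]
    refine Finset.sum_congr rfl fun k _ => ?_
    rw [Finset.sum_comm]
  have h5 : ∀ k, br g a b k * ED k f = eD g a (g.a b k) * ED k f - eD g b (g.a a k) * ED k f +
      (∑ i, ∑ j, g.a a i * g.a b j * cs (cst i j k)) * ED k f := by
    intro k
    unfold br
    ring
  simp only [h5]
  rw [Finset.sum_add_distrib, Finset.sum_sub_distrib, ← h3, h2]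
  ring

end FPT
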