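import Pool.Agent.Helper427.FPT.Defs
import Pool.Agent.Helper427.FPT.P_Gam_anti
import Pool.Agent.Helper427.FPT.P_Gam_tors
import Pool.Agent.Helper427.FPT.P_Gam_ind
import Pool.Agent.Helper427.FPM.P_mu_prob
import Pool.Agent.Helper427.FPM.P_sm_cont
import Pool.Agent.Helper427.FPM.P_Jm_sm

open scoped Quaternion ContDiff
open MeasureTheory FPM Filter Topology

namespace FPT

/-- the Levi-Civita frame data of a metric with orthonormal frame -/
noncomputable def FD (g : Geo) : FPF.FrameData SmA where
  e := eD g
  Γ := Gam g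
  anti := Gam_anti g
  tors := Gam_tors g
  ind := Gam_ind g

/-- 3-tensors with smooth components -/
abbrev Ten := Fin 6 → Fin 6 → Fin 6 → SmA

theorem integrable_ev (f : SmA) : Integrable (fun x => ev x f) mu := by
  haveI := mu_prob
  exact (sm_cont f.1 f.2).integrable_of_hasCompactSupport (HasCompactSupport.of_compactSpace _)

/-- integration over `M` -/
noncomputable def intA : SmA →ₗ[ℝ] ℝ where
  toFun f := ∫ x, ev x f ∂mu
  map_add' f g := by
    simp only [map_add]
    exact integral_add (integrable_ev f) (integrable_ev g)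
  map_smul' c f := by
    simp only [map_smul, smul_eq_mul, RingHom.id_apply]
    exact integral_const_mul c _

/-- mollification of smooth functions -/
noncomputable def JA (m : ℕ) : SmA →ₗ[ℝ] SmA where
  toFun f := ⟨Jm m f.1, Jm_sm m f.1 (sm_cont f.1 f.2)⟩
  map_add' f g := Subtype.ext (by
    haveI := mu_prob
    funext x
    have hk : Continuous (fun z => kr m x z) := by
      have h1 : ∀ s t : M → Sph, Continuous s → Continuous t →
          Continuous (fun z => ip (s z) (t z)) := by
        intro s t hs ht
        unfold ip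
        exact (continuous_subtype_val.comp hs).inner (continuous_subtype_val.comp ht)
      unfold kr kk
      exact ((continuous_const.add (h1 _ _ continuous_const continuous_fst)).pow _).mul
        ((continuous_const.add (h1 _ _ continuous_const continuous_snd)).pow _)
    have hf : Integrable (fun z => kr m x z * f.1 z) mu :=
      (hk.mul (sm_cont f.1 f.2)).integrable_of_hasCompactSupport (HasCompactSupport.of_compactSpace _)
    have hg : Integrable (fun z => kr m x z * g.1 z) mu :=
      (hk.mul (sm_cont g.1 g.2)).integrable_of_hasCompactSupport (HasCompactSupport.of_compactSpace _)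
    have h2 : (Im m)⁻¹ * ∫ z, kr m x z * (f.1 z + g.1 z) ∂mu
        = (Im m)⁻¹ * (∫ z, kr m x z * f.1 z ∂mu) + (Im m)⁻¹ * ∫ z, kr m x z * g.1 z ∂mu := by
      rw [← mul_add, ← integral_add hf hg]
      congr 2
      funext z
      ring
    exact h2)
  map_smul' c f := Subtype.ext (by
    funext x
    have h2 : (Im m)⁻¹ * ∫ z, kr m x z * (c * f.1 z) ∂mu
        = c * ((Im m)⁻¹ * ∫ z, kr m x z * f.1 z ∂mu) := by
      have : (fun z => kr m x z * (c * f.1 z)) = fun z => c * (kr m x z * f.1 z) := by
        funext z; ring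
      rw [this, integral_const_mul]
      ring
    exact h2)

/-- componentwise mollification of 3-tensors -/
noncomputable def JT (m : ℕ) (u : Ten) : Ten := fun a b c => JA m (u a b c)

/-- weighted `L²` product of 3-tensors -/
noncomputable def Bf (ρ : SmA) (u v : Ten) : ℝ :=
  intA (ρ * ∑ a, ∑ b, ∑ c, u a b c * v a b c)

/-- squared `L²` norm of a function -/
noncomputable def q2 (f : SmA) : ℝ := intA (f * f)

/-- first-order operators which commute with mollification up to operators that are bounded
and tend to zero strongly on `L²` -/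
def GoodT (T : Ten → SmA) : Prop :=
  (∃ C : ℝ, 0 ≤ C ∧ ∀ m, 4 ≤ m → ∀ u, q2 (T (JT m u) - JA m (T u))
      ≤ C * ∑ a, ∑ b, ∑ c, q2 (u a b c)) ∧
  ∀ u, Tendsto (fun m => q2 (T (JT m u) - JA m (T u))) atTop (𝓝 0)

/-- `ρ` is (a constant multiple of) the Riemannian density with respect to Haar measure -/
def IsDensity (g : Geo) (ρ : SmA) : Prop :=
  (∀ x, 0 < ev x ρ) ∧ ∀ i, ED i ρ = - (ρ * ∑ k, ∑ c, bb g k c * ED i (g.a c k))

/-- index embedding of the first factor -/
def em (i : Fin 3) : Fin 6 := Fin.castLE (by norm_num) i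

/-- the coframe and frame of the first factor, in terms of the orthonormal frame -/
noncomputable def th (g : Geo) (i : Fin 3) (c : Fin 6) : SmA := g.a c (em i)
noncomputable def Xf (g : Geo) (i : Fin 3) (c : Fin 6) : SmA := bb g (em i) c

/-- the period of a 3-form over the first factor (averaged over the second factor) -/
noncomputable def Lf (g : Geo) (u : Ten) : ℝ :=
  intA (∑ a, ∑ b, ∑ c, u a b c * Xf g 0 a * Xf g 1 b * Xf g 2 c)

/-- energy of `(d u, δ u)` -/
noncomputable def En (ρ : SmA) (w : (Fin 6 → Fin 6 → Fin 6 → Fin 6 → SmA) × (Fin 6 → Fin 6 → SmA)) :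
    ℝ :=
  (1/24) * intA (ρ * ∑ a, ∑ b, ∑ c, ∑ d, w.1 a b c d ^ 2) +
    (1/2) * intA (ρ * ∑ b, ∑ c, w.2 b c ^ 2)

/-- curvature operator components at a point -/
noncomputable def Kx (g : Geo) (x : M) (a b c d : Fin 6) : ℝ := ev x (FPF.Rm (FD g) a b d c)

end FPT
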