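import Pool.Agent.Helper427.FPF.Defs
import Pool.Agent.Helper427.FPM.Defs
import Pool.Agent.Helper427.FPM.P_sm_basic
import Pool.Agent.Helper427.FPM.P_E_sm
import Pool.Agent.Helper427.FPM.P_E_alg
import Pool.Agent.Helper427.FPT.Defs
import Pool.Agent.Helper427.FPT.P_Gam_anti
import Pool.Agent.Helper427.FPT.P_Gam_tors
import Pool.Agent.Helper427.FPT.P_Gam_ind
import Pool.Agent.Helper427.FPM.P_mu_prob
import Pool.Agent.Helper427.FPM.P_sm_cont
import Pool.Agent.Helper427.FPM.P_Jm_sm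
import Pool.Agent.Helper427.FPT.Defs2

open scoped Quaternion ContDiff
open MeasureTheory FPM Filter Topology
namespace FPT



theorem bounds (f : SmA) : (∃ C : ℝ, 0 ≤ C ∧ ∀ x, |ev x f| ≤ C) ∧
    ((∀ x, 0 < ev x f) → ∃ c : ℝ, 0 < c ∧ ∀ x, c ≤ ev x f) := by
  have hc : Continuous (fun x => ev x f) := sm_cont f.1 f.2
  constructor
  · obtain ⟨x0, -, h0⟩ := isCompact_univ.exists_isMaxOn (Set.univ_nonempty (α := M))
      (hc.abs.continuousOn)
    exact ⟨|ev x0 f|, abs_nonneg _, fun x => h0 (Set.mem_univ x)⟩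
  · intro hpos
    obtain ⟨x0, -, h0⟩ := isCompact_univ.exists_isMinOn (Set.univ_nonempty (α := M))
      (hc.continuousOn)
    exact ⟨ev x0 f, hpos x0, fun x => h0 (Set.mem_univ x)⟩

end FPT
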