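import Pool.Agent.Helper427.FPF.Defs
import Pool.Agent.Helper427.FPM.Defs
import Pool.Agent.Helper427.FPM.P_sm_basic
import Pool.Agent.Helper427.FPM.P_E_sm
import Pool.Agent.Helper427.FPM.P_E_alg
import Pool.Agent.Helper427.FPT.Defs
import Pool.Agent.Helper427.FPT.P_Gam_anti
import Pool.Agent.Helper427.FPT.P_Gam_tors
import Pool.Agent.Helper427.FPT.P_Gam_ind
import Pool.Agent.Helper427.FPM.P_mu_prob
import Pool.Agent.Helper427.FPM.P_sm_cont
import Pool.Agent.Helper427.FPM.P_Jm_sm
import Pool.Agent.Helper427.FPT.Defs2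
import Pool.Agent.Helper427.FPM.P_int_E

open scoped Quaternion ContDiff
open MeasureTheory FPM Filter Topology
namespace FPT



theorem intA_basic : (∀ f : SmA, (∀ x, 0 ≤ ev x f) → 0 ≤ intA f) ∧
    (∀ f g : SmA, (∀ x, ev x f ≤ ev x g) → intA f ≤ intA g) ∧
    (∀ i (f : SmA), intA (ED i f) = 0) ∧ intA 1 = 1 := by
  haveI := mu_prob
  refine ⟨fun f hf => ?_, fun f g h => ?_, fun i f => ?_, ?_⟩
  · exact integral_nonneg hf
  · exact integral_mono (integrable_ev f) (integrable_ev g) h
  · exact int_E i f.1 f.2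
  · show ∫ x, ev x 1 ∂mu = 1
    have h : (fun x => ev x (1 : SmA)) = fun _ => (1 : ℝ) := by
      funext x
      exact map_one _
    rw [h]
    simp

end FPT
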