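import Pool.Agent.Helper427.FPF.Defs
import Pool.Agent.Helper427.FPM.Defs
import Pool.Agent.Helper427.FPM.P_sm_basic
import Pool.Agent.Helper427.FPM.P_E_sm
import Pool.Agent.Helper427.FPM.P_E_alg
import Pool.Agent.Helper427.FPT.Defs
import Pool.Agent.Helper427.FPT.P_Gam_anti
import Pool.Agent.Helper427.FPT.P_Gam_tors
import Pool.Agent.Helper427.FPT.P_Gam_ind
import Pool.Agent.Helper427.FPM.P_mu_prob
import Pool.Agent.Helper427.FPM.P_sm_cont
import Pool.Agent.Helper427.FPM.P_Jm_sm
import Pool.Agent.Helper427.FPT.Defs2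
import Pool.Agent.Helper427.FPM.P_int_E
import Pool.Agent.Helper427.FPT.P_intA_basic

open scoped Quaternion ContDiff
open MeasureTheory FPM Filter Topology
namespace FPT




theorem q2_props : (∀ f : SmA, q2 f = n2 f.1) ∧ (∀ f : SmA, 0 ≤ q2 f) ∧
    (∀ f g : SmA, q2 (f + g) ≤ 2 * q2 f + 2 * q2 g) ∧ (∀ f : SmA, q2 (-f) = q2 f) := by
  refine ⟨?_, ?_, ?_, ?_⟩
  · intro f
    unfold q2 n2
    show ∫ x, ev x (f * f) ∂mu = _
    congr 1
    funext x
    rw [map_mul, ev_apply, pow_two]
  · intro f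
    exact intA_basic.1 (f * f) (fun x => by rw [map_mul]; exact mul_self_nonneg _)
  · intro f g
    have h := intA_basic.2.1 ((f + g) * (f + g)) ((2:ℝ) • (f * f) + (2:ℝ) • (g * g)) (fun x => by
      simp only [map_add, map_mul, map_smul, smul_eq_mul]
      nlinarith [sq_nonneg (ev x f - ev x g)])
    rw [map_add, map_smul, map_smul, smul_eq_mul, smul_eq_mul] at h
    exact h
  · intro f
    unfold q2
    congr 1
    apply ext_ev
    intro x
    simp only [map_mul, map_neg]
    ring


end FPT
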