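import Pool.Agent.Helper427.FPF.Defs
import Pool.Agent.Helper427.FPM.Defs
import Pool.Agent.Helper427.FPM.P_sm_basic
import Pool.Agent.Helper427.FPM.P_E_sm
import Pool.Agent.Helper427.FPM.P_E_alg
import Pool.Agent.Helper427.FPT.Defs
import Pool.Agent.Helper427.FPT.P_Gam_anti
import Pool.Agent.Helper427.FPT.P_Gam_tors
import Pool.Agent.Helper427.FPT.P_Gam_ind
import Pool.Agent.Helper427.FPM.P_mu_prob
import Pool.Agent.Helper427.FPM.P_sm_cont
import Pool.Agent.Helper427.FPM.P_Jm_sm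
import Pool.Agent.Helper427.FPT.Defs2
import Pool.Agent.Helper427.FPM.P_int_E
import Pool.Agent.Helper427.FPT.P_intA_basic
import Pool.Agent.Helper427.FPT.P_bounds
import Pool.Agent.Helper427.FPT.P_q2_props

open scoped Quaternion ContDiff
open MeasureTheory FPM Filter Topology
namespace FPT



theorem Bf_compare_aux (ρ S : SmA) (c C : ℝ) (hc : ∀ x, c ≤ ev x ρ) (hC : ∀ x, |ev x ρ| ≤ C)
    (hS : ∀ x, 0 ≤ ev x S) :
    c * intA S ≤ intA (ρ * S) ∧ intA (ρ * S) ≤ C * intA S := by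
  constructor
  · have h := intA_basic.2.1 (c • S) (ρ * S) (fun x => by
      rw [map_smul, map_mul, smul_eq_mul]
      exact mul_le_mul_of_nonneg_right (hc x) (hS x))
    rwa [map_smul, smul_eq_mul] at h
  · have h := intA_basic.2.1 (ρ * S) (C • S) (fun x => by
      rw [map_smul, map_mul, smul_eq_mul]
      exact mul_le_mul_of_nonneg_right ((le_abs_self _).trans (hC x)) (hS x))
    rwa [map_smul, smul_eq_mul] at h

theorem Bf_compare_s3 (u : Ten) : (∀ x, 0 ≤ ev x (∑ a, ∑ b, ∑ c, u a b c * u a b c)) ∧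
    intA (∑ a, ∑ b, ∑ c, u a b c * u a b c) = ∑ a, ∑ b, ∑ c, q2 (u a b c) := by
  constructor
  · intro x
    simp only [map_sum, map_mul]
    exact Finset.sum_nonneg (fun a _ => Finset.sum_nonneg (fun b _ => Finset.sum_nonneg
      (fun c _ => mul_self_nonneg _)))
  · simp only [map_sum]
    rfl

theorem Bf_compare_s4 (w : Fin 6 → Fin 6 → Fin 6 → Fin 6 → SmA) :
    (∀ x, 0 ≤ ev x (∑ a, ∑ b, ∑ c, ∑ d, w a b c d ^ 2)) ∧
    intA (∑ a, ∑ b, ∑ c, ∑ d, w a b c d ^ 2) = ∑ a, ∑ b, ∑ c, ∑ d, q2 (w a b c d) := by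
  constructor
  · intro x
    simp only [map_sum, map_pow]
    exact Finset.sum_nonneg (fun a _ => Finset.sum_nonneg (fun b _ => Finset.sum_nonneg
      (fun c _ => Finset.sum_nonneg (fun d _ => sq_nonneg _))))
  · simp only [map_sum, q2, pow_two]

theorem Bf_compare_s2 (w : Fin 6 → Fin 6 → SmA) :
    (∀ x, 0 ≤ ev x (∑ b, ∑ c, w b c ^ 2)) ∧
    intA (∑ b, ∑ c, w b c ^ 2) = ∑ b, ∑ c, q2 (w b c) := by
  constructor
  · intro x
    simp only [map_sum, map_pow]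
    exact Finset.sum_nonneg (fun a _ => Finset.sum_nonneg (fun b _ => sq_nonneg _))
  · simp only [map_sum, q2, pow_two]

theorem Bf_compare (g : Geo) (ρ : SmA) (hρ : IsDensity g ρ) : ∃ c C : ℝ, 0 < c ∧ 0 ≤ C ∧
    (∀ u, c * ∑ a, ∑ b, ∑ c, q2 (u a b c) ≤ Bf ρ u u) ∧
    (∀ u, Bf ρ u u ≤ C * ∑ a, ∑ b, ∑ c, q2 (u a b c)) ∧
    (∀ w, En ρ w ≤ C * ((∑ a, ∑ b, ∑ c, ∑ d, q2 (w.1 a b c d)) + ∑ b, ∑ c, q2 (w.2 b c))) ∧
    (∀ w, 0 ≤ En ρ w) := by
  obtain ⟨⟨C, hC0, hC⟩, h2⟩ := bounds ρ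
  obtain ⟨c, hc0, hc⟩ := h2 hρ.1
  refine ⟨c, C, hc0, hC0, ?_, ?_, ?_, ?_⟩
  · intro u
    have h3 := Bf_compare_s3 u
    have h4 := (Bf_compare_aux ρ _ c C hc hC h3.1).1
    rw [h3.2] at h4
    exact h4
  · intro u
    have h3 := Bf_compare_s3 u
    have h4 := (Bf_compare_aux ρ _ c C hc hC h3.1).2
    rw [h3.2] at h4
    exact h4
  · intro w
    have h3 := Bf_compare_s4 w.1
    have h4 := (Bf_compare_aux ρ _ c C hc hC h3.1).2
    rw [h3.2] at h4
    have h5 := Bf_compare_s2 w.2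
    have h6 := (Bf_compare_aux ρ _ c C hc hC h5.1).2
    rw [h5.2] at h6
    have h7 : 0 ≤ ∑ a, ∑ b, ∑ c, ∑ d, q2 (w.1 a b c d) :=
      Finset.sum_nonneg (fun a _ => Finset.sum_nonneg (fun b _ => Finset.sum_nonneg
        (fun c _ => Finset.sum_nonneg (fun d _ => q2_props.2.1 _))))
    have h8 : 0 ≤ ∑ b, ∑ c, q2 (w.2 b c) :=
      Finset.sum_nonneg (fun a _ => Finset.sum_nonneg (fun b _ => q2_props.2.1 _))
    unfold En
    have h9 := mul_nonneg hC0 h7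
    have h10 := mul_nonneg hC0 h8
    rw [mul_add]
    linarith
  · intro w
    have h3 := Bf_compare_s4 w.1
    have h4 := (Bf_compare_aux ρ _ c C hc hC h3.1).1
    rw [h3.2] at h4
    have h5 := Bf_compare_s2 w.2
    have h6 := (Bf_compare_aux ρ _ c C hc hC h5.1).1
    rw [h5.2] at h6
    have h7 : 0 ≤ ∑ a, ∑ b, ∑ c, ∑ d, q2 (w.1 a b c d) :=
      Finset.sum_nonneg (fun a _ => Finset.sum_nonneg (fun b _ => Finset.sum_nonneg
        (fun c _ => Finset.sum_nonneg (fun d _ => q2_props.2.1 _))))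
    have h8 : 0 ≤ ∑ b, ∑ c, q2 (w.2 b c) :=
      Finset.sum_nonneg (fun a _ => Finset.sum_nonneg (fun b _ => q2_props.2.1 _))
    have h9 := mul_nonneg hc0.le h7
    have h10 := mul_nonneg hc0.le h8
    unfold En
    linarith

end FPT
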