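import Pool.Agent.Helper427.FPF.Defs
import Pool.Agent.Helper427.FPM.Defs
import Pool.Agent.Helper427.FPM.P_sm_basic
import Pool.Agent.Helper427.FPM.P_E_sm
import Pool.Agent.Helper427.FPM.P_E_alg
import Pool.Agent.Helper427.FPT.Defs
import Pool.Agent.Helper427.FPT.P_Gam_anti
import Pool.Agent.Helper427.FPT.P_Gam_tors
import Pool.Agent.Helper427.FPT.P_Gam_ind
import Pool.Agent.Helper427.FPM.P_mu_prob
import Pool.Agent.Helper427.FPM.P_sm_cont
import Pool.Agent.Helper427.FPM.P_Jm_sm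
import Pool.Agent.Helper427.FPT.Defs2
import Pool.Agent.Helper427.FPM.P_Jm_bdd
import Pool.Agent.Helper427.FPM.P_Jm_tendsto
import Pool.Agent.Helper427.FPT.P_q2_props

open scoped Quaternion ContDiff
open MeasureTheory FPM Filter Topology
namespace FPT



theorem JA_props : (∀ m (f : SmA), q2 (JA m f) ≤ q2 f) ∧
    (∀ f : SmA, Tendsto (fun m => q2 (JA m f - f)) atTop (𝓝 0)) := by
  refine ⟨?_, ?_⟩
  · intro m f
    rw [q2_props.1, q2_props.1]
    exact Jm_bdd m f.1 (sm_cont f.1 f.2)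
  · intro f
    refine (Jm_tendsto f.1 f.2).congr ?_
    intro m
    rw [q2_props.1]
    rfl

end FPT
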