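import Pool.Agent.Helper427.FPF.Defs
import Pool.Agent.Helper427.FPM.Defs
import Pool.Agent.Helper427.FPM.P_sm_basic
import Pool.Agent.Helper427.FPM.P_E_sm
import Pool.Agent.Helper427.FPM.P_E_alg
import Pool.Agent.Helper427.FPT.Defs
import Pool.Agent.Helper427.FPT.P_Gam_anti
import Pool.Agent.Helper427.FPT.P_Gam_tors
import Pool.Agent.Helper427.FPT.P_Gam_ind
import Pool.Agent.Helper427.FPM.P_mu_prob
import Pool.Agent.Helper427.FPM.P_sm_cont
import Pool.Agent.Helper427.FPM.P_Jm_sm
import Pool.Agent.Helper427.FPT.Defs2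
import Pool.Agent.Helper427.FPA.Defs
import Pool.Agent.Helper427.FPF.P_Rm_anti
import Pool.Agent.Helper427.FPF.P_Rm_bianchi

open scoped Quaternion ContDiff
open MeasureTheory FPM Filter Topology
namespace FPT



theorem Kx_curv (g : Geo) (x : M) : FPA.CurvT (Kx g x) := by
  have h1 := (FPF.Rm_anti (FD g)).1
  have h2 := (FPF.Rm_anti (FD g)).2
  have h3 := FPF.Rm_bianchi (FD g)
  refine ⟨?_, ?_, ?_⟩
  · intro a b c d
    show ev x (FPF.Rm (FD g) a b d c) = - ev x (FPF.Rm (FD g) b a d c)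
    rw [h1 a b d c, map_neg]
  · intro a b c d
    show ev x (FPF.Rm (FD g) a b d c) = - ev x (FPF.Rm (FD g) a b c d)
    rw [h2 a b d c, map_neg]
  · intro a b c d
    show ev x (FPF.Rm (FD g) a b d c) + ev x (FPF.Rm (FD g) b c d a) +
      ev x (FPF.Rm (FD g) c a d b) = 0
    rw [h2 a b d c, h2 b c d a, h2 c a d b, map_neg, map_neg, map_neg]
    have h4 := congrArg (ev x) (h3 a b c d)
    rw [map_add, map_add, map_zero] at h4
    linarith

end FPT
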