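import Pool.Agent.Helper427.FPF.Defs
import Pool.Agent.Helper427.FPM.Defs
import Pool.Agent.Helper427.FPM.P_sm_basic
import Pool.Agent.Helper427.FPM.P_E_sm
import Pool.Agent.Helper427.FPM.P_E_alg
import Pool.Agent.Helper427.FPT.Defs
import Pool.Agent.Helper427.FPT.P_Gam_anti
import Pool.Agent.Helper427.FPT.P_Gam_tors
import Pool.Agent.Helper427.FPT.P_Gam_ind
import Pool.Agent.Helper427.FPM.P_mu_prob
import Pool.Agent.Helper427.FPM.P_sm_cont
import Pool.Agent.Helper427.FPM.P_Jm_sm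
import Pool.Agent.Helper427.FPT.Defs2
import Pool.Agent.Helper427.FPM.P_int_E
import Pool.Agent.Helper427.FPT.P_intA_basic
import Pool.Agent.Helper427.FPT.P_bounds

open scoped Quaternion ContDiff
open MeasureTheory FPM Filter Topology
namespace FPT



theorem L_bdd_cs (U : Fin 6 → Fin 6 → Fin 6 → ℝ) (X Y Z : Fin 6 → ℝ) :
    (∑ a, ∑ b, ∑ c, U a b c * X a * Y b * Z c) ^ 2 ≤
      (∑ a, ∑ b, ∑ c, U a b c * U a b c) * (∑ a, ∑ b, ∑ c, (X a * Y b * Z c) ^ 2) := by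
  have h := Finset.sum_mul_sq_le_sq_mul_sq (Finset.univ : Finset (Fin 6 × Fin 6 × Fin 6))
    (fun p => U p.1 p.2.1 p.2.2) (fun p => X p.1 * Y p.2.1 * Z p.2.2)
  simp only [Fintype.sum_prod_type] at h
  have e1 : (∑ a, ∑ b, ∑ c, U a b c * X a * Y b * Z c) =
      ∑ a, ∑ b, ∑ c, U a b c * (X a * Y b * Z c) :=
    Finset.sum_congr rfl fun a _ => Finset.sum_congr rfl fun b _ => Finset.sum_congr rfl fun c _ => by
      ring
  have e2 : (∑ a, ∑ b, ∑ c, U a b c * U a b c) = ∑ a, ∑ b, ∑ c, U a b c ^ 2 :=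
    Finset.sum_congr rfl fun a _ => Finset.sum_congr rfl fun b _ => Finset.sum_congr rfl fun c _ => by
      ring
  rw [e1, e2]
  exact h

theorem L_bdd_jensen (F : SmA) : (intA F) ^ 2 ≤ intA (F * F) := by
  obtain ⟨c, hc⟩ : ∃ c, c = intA F := ⟨_, rfl⟩
  have h1 : 0 ≤ intA (F * F + (-(2 * c)) • F + (c ^ 2) • (1 : SmA)) := by
    apply intA_basic.1
    intro x
    simp only [map_add, map_mul, map_smul, map_one, smul_eq_mul]
    nlinarith [sq_nonneg (ev x F - c)]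
  rw [map_add, map_add, map_smul, map_smul, intA_basic.2.2.2, ← hc, smul_eq_mul, smul_eq_mul] at h1
  rw [← hc]
  nlinarith

theorem L_bdd (g : Geo) (ρ : SmA) (hρ : IsDensity g ρ) : ∃ C : ℝ, 0 ≤ C ∧
    ∀ u, (Lf g u) ^ 2 ≤ C * Bf ρ u u := by
  obtain ⟨K, hK0, hK⟩ := (bounds (∑ a, ∑ b, ∑ c, (Xf g 0 a * Xf g 1 b * Xf g 2 c) ^ 2)).1
  obtain ⟨r, hr0, hr⟩ := (bounds ρ).2 hρ.1
  refine ⟨K / r, by positivity, fun u => ?_⟩
  unfold Lf
  refine (L_bdd_jensen _).trans ?_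
  have h1 : K / r * Bf ρ u u = intA ((K / r) • (ρ * ∑ a, ∑ b, ∑ c, u a b c * u a b c)) := by
    rw [map_smul, smul_eq_mul]
    rfl
  rw [h1]
  apply intA_basic.2.1
  intro x
  have h2 := hK x
  have h3 := hr x
  simp only [map_sum, map_mul, map_pow, map_smul, smul_eq_mul] at h2 ⊢
  have h4 := L_bdd_cs (fun a b c => ev x (u a b c)) (fun a => ev x (Xf g 0 a))
    (fun a => ev x (Xf g 1 a)) (fun a => ev x (Xf g 2 a))
  have h5 : 0 ≤ ∑ a, ∑ b, ∑ c, ev x (u a b c) * ev x (u a b c) :=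
    Finset.sum_nonneg fun a _ => Finset.sum_nonneg fun b _ => Finset.sum_nonneg fun c _ =>
      mul_self_nonneg _
  have h6 := (le_abs_self _).trans h2
  generalize (∑ a, ∑ b, ∑ c, ev x (u a b c) * ev x (u a b c)) = S at h4 h5 ⊢
  generalize (∑ a, ∑ b, ∑ c, (ev x (Xf g 0 a) * ev x (Xf g 1 b) * ev x (Xf g 2 c)) ^ 2) = T
    at h4 h6
  rw [← sq]
  refine h4.trans ?_
  calc S * T ≤ S * K := mul_le_mul_of_nonneg_left h6 h5
    _ = K / r * (r * S) := by field_simp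
    _ ≤ K / r * (ev x ρ * S) := by gcongr

end FPT
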