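import Pool.Agent.Helper427.FPF.Defs
import Pool.Agent.Helper427.FPM.Defs
import Pool.Agent.Helper427.FPM.P_sm_basic
import Pool.Agent.Helper427.FPM.P_E_sm
import Pool.Agent.Helper427.FPM.P_E_alg
import Pool.Agent.Helper427.FPT.Defs
import Pool.Agent.Helper427.FPT.P_Gam_anti
import Pool.Agent.Helper427.FPT.P_Gam_tors
import Pool.Agent.Helper427.FPT.P_Gam_ind
import Pool.Agent.Helper427.FPM.P_mu_prob
import Pool.Agent.Helper427.FPM.P_sm_cont
import Pool.Agent.Helper427.FPM.P_Jm_sm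
import Pool.Agent.Helper427.FPT.Defs2
import Pool.Agent.Helper427.FPM.P_E_comm
import Pool.Agent.Helper427.FPT.P_bb_eD

open scoped Quaternion ContDiff
open MeasureTheory FPM Filter Topology
namespace FPT



theorem Xf_hyp_P {A : Type*} [CommRing A] [Algebra ℝ A] (F : FPF.FrameData A) (X Y : Fin 6 → A)
    (f : A) : ∑ c, (∑ a, X a * FPF.nab1 F Y a c) * F.e c f =
      ∑ a, ∑ c, X a * F.e a (Y c) * F.e c f + ∑ a, ∑ h, ∑ c, X a * Y h * F.Γ a h c * F.e c f := by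
  have h1 : ∀ c, (∑ a, X a * FPF.nab1 F Y a c) * F.e c f =
      ∑ a, X a * F.e a (Y c) * F.e c f + ∑ a, ∑ h, X a * Y h * F.Γ a h c * F.e c f := by
    intro c
    rw [Finset.sum_mul, ← Finset.sum_add_distrib]
    refine Finset.sum_congr rfl fun a _ => ?_
    have h2 : ∑ h, F.Γ a c h * Y h = - ∑ h, Y h * F.Γ a h c := by
      rw [← Finset.sum_neg_distrib]
      refine Finset.sum_congr rfl fun h _ => ?_
      rw [F.anti a c h]; ring
    have h3 : ∑ h, X a * Y h * F.Γ a h c * F.e c f = X a * (∑ h, Y h * F.Γ a h c) * F.e c f := by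
      rw [Finset.mul_sum, Finset.sum_mul]
      refine Finset.sum_congr rfl fun h _ => ?_
      ring
    rw [h3, FPF.nab1, h2]
    ring
  rw [Finset.sum_congr rfl fun c _ => h1 c, Finset.sum_add_distrib]
  congr 1
  · rw [Finset.sum_comm]
  · rw [Finset.sum_comm]
    refine Finset.sum_congr rfl fun a _ => ?_
    rw [Finset.sum_comm]

theorem Xf_hyp_Q {A : Type*} [CommRing A] [Algebra ℝ A] (F : FPF.FrameData A) (X Y : Fin 6 → A)
    (f : A) : ∑ a, X a * F.e a (∑ c, Y c * F.e c f) =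
      ∑ a, ∑ c, X a * Y c * F.e a (F.e c f) + ∑ a, ∑ c, X a * F.e a (Y c) * F.e c f := by
  rw [← Finset.sum_add_distrib]
  refine Finset.sum_congr rfl fun a _ => ?_
  rw [map_sum, Finset.mul_sum, ← Finset.sum_add_distrib]
  refine Finset.sum_congr rfl fun c _ => ?_
  rw [Derivation.leibniz, smul_eq_mul, smul_eq_mul]
  ring

theorem Xf_hyp_T {A : Type*} [CommRing A] [Algebra ℝ A] (F : FPF.FrameData A) (X Y : Fin 6 → A)
    (f : A) : (∑ a, ∑ c, X a * Y c * F.e a (F.e c f)) - ∑ a, ∑ c, Y a * X c * F.e a (F.e c f) =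
      (∑ a, ∑ h, ∑ c, X a * Y h * F.Γ a h c * F.e c f) -
        ∑ a, ∑ h, ∑ c, Y a * X h * F.Γ a h c * F.e c f := by
  rw [Finset.sum_comm (f := fun a c => Y a * X c * F.e a (F.e c f)),
    Finset.sum_comm (f := fun a h => ∑ c, Y a * X h * F.Γ a h c * F.e c f)]
  rw [← Finset.sum_sub_distrib, ← Finset.sum_sub_distrib]
  refine Finset.sum_congr rfl fun a _ => ?_
  rw [← Finset.sum_sub_distrib, ← Finset.sum_sub_distrib]
  refine Finset.sum_congr rfl fun b _ => ?_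
  rw [← Finset.sum_sub_distrib]
  have h1 : X a * Y b * F.e a (F.e b f) - Y b * X a * F.e b (F.e a f) =
      X a * Y b * (F.e a (F.e b f) - F.e b (F.e a f)) := by ring
  rw [h1, F.tors a b f, Finset.mul_sum]
  refine Finset.sum_congr rfl fun c _ => ?_
  ring

theorem Xf_hyp_alg {A : Type*} [CommRing A] [Algebra ℝ A] (F : FPF.FrameData A) (X Y : Fin 6 → A)
    (f : A) : ∑ c, (∑ a, (X a * FPF.nab1 F Y a c - Y a * FPF.nab1 F X a c)) * F.e c f =
      (∑ a, X a * F.e a (∑ c, Y c * F.e c f)) - ∑ a, Y a * F.e a (∑ c, X c * F.e c f) := by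
  have h1 : ∑ c, (∑ a, (X a * FPF.nab1 F Y a c - Y a * FPF.nab1 F X a c)) * F.e c f =
      ∑ c, (∑ a, X a * FPF.nab1 F Y a c) * F.e c f - ∑ c, (∑ a, Y a * FPF.nab1 F X a c) * F.e c f := by
    rw [← Finset.sum_sub_distrib]
    refine Finset.sum_congr rfl fun c _ => ?_
    rw [Finset.sum_sub_distrib, sub_mul]
  rw [h1, Xf_hyp_P, Xf_hyp_P, Xf_hyp_Q, Xf_hyp_Q]
  have h2 := Xf_hyp_T F X Y f
  linear_combination - h2

theorem Xf_hyp_cst (i : Fin 3) (k : Fin 6) :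
    cst (em i) (em (i + 1)) k = if k = em (i + 2) then -2 else 0 := by
  have e0 : em 0 = 0 := rfl
  have e1 : em 1 = 1 := rfl
  have e2 : em 2 = 2 := rfl
  have h01 : (0 : Fin 3) + 1 = 1 := rfl
  have h02 : (0 : Fin 3) + 2 = 2 := rfl
  have h11 : (1 : Fin 3) + 1 = 2 := rfl
  have h12 : (1 : Fin 3) + 2 = 0 := rfl
  have h21 : (2 : Fin 3) + 1 = 0 := rfl
  have h22 : (2 : Fin 3) + 2 = 1 := rfl
  fin_cases i <;> fin_cases k <;> simp [cst, e0, e1, e2, h01, h02, h11, h12, h21, h22]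

theorem Xf_hyp_comm (i : Fin 3) (f : SmA) :
    ED (em i) (ED (em (i + 1)) f) - ED (em (i + 1)) (ED (em i) f) = (-2 : ℝ) • ED (em (i + 2)) f := by
  apply ext_ev
  intro x
  have h := E_comm (em i) (em (i + 1)) f.1 f.2 x
  have h2 : ∑ k, cst (em i) (em (i + 1)) k * E k f.1 x = -2 * E (em (i + 2)) f.1 x := by
    simp only [Xf_hyp_cst, ite_mul, zero_mul, Finset.sum_ite_eq', Finset.mem_univ, if_true]
  rw [h2] at h
  rw [map_sub, map_smul, smul_eq_mul]
  exact h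

theorem Xf_hyp (g : Geo) (i : Fin 3) (c : Fin 6) :
    ∑ a, (Xf g i a * FPF.nab1 (FD g) (Xf g (i+1)) a c
      - Xf g (i+1) a * FPF.nab1 (FD g) (Xf g i) a c) = (-2 : ℝ) • Xf g (i+2) c := by
  have key := Gam_ind g (fun c => ∑ a, (Xf g i a * FPF.nab1 (FD g) (Xf g (i+1)) a c
      - Xf g (i+1) a * FPF.nab1 (FD g) (Xf g i) a c) - (-2 : ℝ) • Xf g (i+2) c) (fun f => by
    have h1 := Xf_hyp_alg (FD g) (Xf g i) (Xf g (i + 1)) f
    have hX : ∀ (j : Fin 3) (f : SmA), ∑ c, Xf g j c * (FD g).e c f = ED (em j) f := fun j f =>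
      bb_eD g (em j) f
    rw [hX, hX, hX, hX, Xf_hyp_comm] at h1
    simp only [sub_mul, Finset.sum_sub_distrib] at h1 ⊢
    have h3 : ∑ d, ((-2 : ℝ) • Xf g (i+2) d) * eD g d f = (-2 : ℝ) • ED (em (i + 2)) f := by
      rw [← hX (i + 2) f, Finset.smul_sum]
      refine Finset.sum_congr rfl fun d _ => ?_
      rw [smul_mul_assoc]
      rfl
    rw [h3]
    exact sub_eq_zero.2 h1)
  have := congrFun key c
  exact sub_eq_zero.1 this

end FPT
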