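import Pool.Agent.Helper427.FPF.Defs
import Pool.Agent.Helper427.FPM.Defs
import Pool.Agent.Helper427.FPM.P_sm_basic
import Pool.Agent.Helper427.FPM.P_E_sm
import Pool.Agent.Helper427.FPM.P_E_alg
import Pool.Agent.Helper427.FPT.Defs
import Pool.Agent.Helper427.FPT.P_Gam_anti
import Pool.Agent.Helper427.FPT.P_Gam_tors
import Pool.Agent.Helper427.FPT.P_Gam_ind
import Pool.Agent.Helper427.FPM.P_mu_prob
import Pool.Agent.Helper427.FPM.P_sm_cont
import Pool.Agent.Helper427.FPM.P_Jm_sm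
import Pool.Agent.Helper427.FPT.Defs2
import Pool.Agent.Helper427.FPF.P_d2_fields
import Pool.Agent.Helper427.FPM.P_int_E
import Pool.Agent.Helper427.FPT.P_intA_basic
import Pool.Agent.Helper427.FPT.P_bb_eD
import Pool.Agent.Helper427.FPT.P_Xf_hyp

open scoped Quaternion ContDiff
open MeasureTheory FPM Filter Topology
namespace FPT



theorem L_exact (g : Geo) (β : Fin 6 → Fin 6 → SmA) (hβ : FPF.Alt2 β) :
    Lf g (FPF.d2 (FD g) β) = 0 := by
  have key : ∀ (i : Fin 3) (f : SmA), intA (∑ a, Xf g i a * (FD g).e a f) = 0 := by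
    intro i f
    have h1 : ∑ a, Xf g i a * (FD g).e a f = ED (em i) f := bb_eD g (em i) f
    rw [h1]
    exact intA_basic.2.2.1 (em i) f
  unfold Lf
  rw [FPF.d2_fields (FD g) (Xf g) (-2) (Xf_hyp g) β hβ, map_add, map_add, key, key, key]
  simp

end FPT
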