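import Pool.Agent.Helper427.FPF.Defs
import Pool.Agent.Helper427.FPM.Defs
import Pool.Agent.Helper427.FPM.P_sm_basic
import Pool.Agent.Helper427.FPM.P_E_sm
import Pool.Agent.Helper427.FPM.P_E_alg
import Pool.Agent.Helper427.FPT.Defs
import Pool.Agent.Helper427.FPT.P_Gam_anti
import Pool.Agent.Helper427.FPT.P_Gam_tors
import Pool.Agent.Helper427.FPT.P_Gam_ind
import Pool.Agent.Helper427.FPM.P_mu_prob
import Pool.Agent.Helper427.FPM.P_sm_cont
import Pool.Agent.Helper427.FPM.P_Jm_sm
import Pool.Agent.Helper427.FPT.Defs2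
import Pool.Agent.Helper427.FPT.P_bb_inv
import Pool.Agent.Helper427.FPM.P_int_E
import Pool.Agent.Helper427.FPT.P_intA_basic

open scoped Quaternion ContDiff
open MeasureTheory FPM Filter Topology
namespace FPT



theorem L_wedge_prod {R : Type*} [CommRing R] (p q r X0 X1 X2 : Fin 6 → R) :
    ∑ a, ∑ b, ∑ c, (p a * q b * r c) * X0 a * X1 b * X2 c =
      (∑ a, p a * X0 a) * (∑ b, q b * X1 b) * (∑ c, r c * X2 c) := by
  rw [Finset.sum_mul_sum, Finset.sum_mul]
  refine Finset.sum_congr rfl fun a _ => ?_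
  rw [Finset.sum_mul]
  refine Finset.sum_congr rfl fun b _ => ?_
  rw [Finset.mul_sum]
  refine Finset.sum_congr rfl fun c _ => ?_
  ring

theorem L_wedge_dual (g : Geo) (i j : Fin 3) : ∑ a, th g i a * Xf g j a = if i = j then 1 else 0 := by
  have h := (bb_inv g).1 (em j) (em i)
  have e : ∑ a, th g i a * Xf g j a = ∑ c, bb g (em j) c * g.a c (em i) := by
    refine Finset.sum_congr rfl fun a _ => ?_
    unfold th Xf
    ring
  rw [e, h]
  have h2 : (em j = em i) ↔ (i = j) := by
    unfold em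
    rw [Fin.ext_iff, Fin.ext_iff, Fin.val_castLE, Fin.val_castLE]
    exact eq_comm
  simp only [h2]

theorem L_wedge (g : Geo) : Lf g (FPF.wedge (th g)) = 1 := by
  have key := fun p q r : Fin 6 → SmA => L_wedge_prod p q r (Xf g 0) (Xf g 1) (Xf g 2)
  have e : ∑ a, ∑ b, ∑ c, FPF.wedge (th g) a b c * Xf g 0 a * Xf g 1 b * Xf g 2 c = 1 := by
    simp only [FPF.wedge, add_mul, sub_mul, Finset.sum_add_distrib, Finset.sum_sub_distrib]
    rw [key (th g 0) (th g 1) (th g 2), key (th g 1) (th g 2) (th g 0),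
      key (th g 2) (th g 0) (th g 1), key (th g 0) (th g 2) (th g 1),
      key (th g 2) (th g 1) (th g 0), key (th g 1) (th g 0) (th g 2)]
    simp only [L_wedge_dual]
    have h01 : ¬ ((0 : Fin 3) = 1) := by decide
    have h02 : ¬ ((0 : Fin 3) = 2) := by decide
    have h10 : ¬ ((1 : Fin 3) = 0) := by decide
    have h12 : ¬ ((1 : Fin 3) = 2) := by decide
    have h20 : ¬ ((2 : Fin 3) = 0) := by decide
    have h21 : ¬ ((2 : Fin 3) = 1) := by decide
    simp only [h01, h02, h10, h12, h20, h21, if_true, if_false]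
    ring
  unfold Lf
  rw [e]
  exact intA_basic.2.2.2

end FPT
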