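import Pool.Agent.Helper427.FPF.Defs
import Pool.Agent.Helper427.FPM.Defs
import Pool.Agent.Helper427.FPM.P_sm_basic
import Pool.Agent.Helper427.FPM.P_E_sm
import Pool.Agent.Helper427.FPM.P_E_alg
import Pool.Agent.Helper427.FPT.Defs
import Pool.Agent.Helper427.FPT.P_Gam_anti
import Pool.Agent.Helper427.FPT.P_Gam_tors
import Pool.Agent.Helper427.FPT.P_Gam_ind
import Pool.Agent.Helper427.FPM.P_mu_prob
import Pool.Agent.Helper427.FPM.P_sm_cont
import Pool.Agent.Helper427.FPM.P_Jm_sm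
import Pool.Agent.Helper427.FPT.Defs2
import Pool.Agent.Helper427.FPA.Defs
import Pool.Agent.Helper427.FPA.P_T_pos
import Pool.Agent.Helper427.FPT.P_Kx_curv

open scoped Quaternion ContDiff
open MeasureTheory FPM Filter Topology
namespace FPT



theorem coercive_apply3 (a b c : Fin 6) :
    Continuous fun u : FPA.T3 => u a b c :=
  (continuous_apply c).comp ((continuous_apply b).comp (continuous_apply a))

theorem coercive_N_nonneg (u : FPA.T3) : 0 ≤ ∑ a, ∑ b, ∑ c, u a b c ^ 2 :=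
  Finset.sum_nonneg fun _ _ => Finset.sum_nonneg fun _ _ => Finset.sum_nonneg fun _ _ => sq_nonneg _

theorem coercive_le_N (u : FPA.T3) (a b c : Fin 6) : u a b c ^ 2 ≤ ∑ a, ∑ b, ∑ c, u a b c ^ 2 := by
  calc u a b c ^ 2 ≤ ∑ c, u a b c ^ 2 :=
        Finset.single_le_sum (f := fun c => u a b c ^ 2) (fun _ _ => sq_nonneg _) (Finset.mem_univ c)
    _ ≤ ∑ b, ∑ c, u a b c ^ 2 :=
        Finset.single_le_sum (f := fun b => ∑ c, u a b c ^ 2)
          (fun _ _ => Finset.sum_nonneg fun _ _ => sq_nonneg _) (Finset.mem_univ b)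
    _ ≤ ∑ a, ∑ b, ∑ c, u a b c ^ 2 :=
        Finset.single_le_sum (f := fun a => ∑ b, ∑ c, u a b c ^ 2)
          (fun _ _ => Finset.sum_nonneg fun _ _ => Finset.sum_nonneg fun _ _ => sq_nonneg _)
          (Finset.mem_univ a)

theorem coercive_N_smul (s : ℝ) (u : FPA.T3) :
    ∑ a, ∑ b, ∑ c, (s • u) a b c ^ 2 = s ^ 2 * ∑ a, ∑ b, ∑ c, u a b c ^ 2 := by
  simp only [Finset.mul_sum]
  refine Finset.sum_congr rfl fun a _ => Finset.sum_congr rfl fun b _ =>
    Finset.sum_congr rfl fun c _ => ?_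
  simp only [Pi.smul_apply, smul_eq_mul]
  ring

theorem coercive_T_smul (K : FPA.T4) (s : ℝ) (u : FPA.T3) :
    FPA.Tform K (s • u) = s ^ 2 * FPA.Tform K u := by
  unfold FPA.Tform
  rw [mul_add]
  simp only [Finset.mul_sum]
  refine congrArg₂ (· + ·) ?_ ?_
  · refine Finset.sum_congr rfl fun i _ => Finset.sum_congr rfl fun j _ =>
      Finset.sum_congr rfl fun f _ => Finset.sum_congr rfl fun k _ =>
      Finset.sum_congr rfl fun l _ => ?_
    simp only [Pi.smul_apply, smul_eq_mul]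
    ring
  · refine Finset.sum_congr rfl fun i _ => Finset.sum_congr rfl fun j _ =>
      Finset.sum_congr rfl fun f _ => Finset.sum_congr rfl fun k _ =>
      Finset.sum_congr rfl fun l _ => ?_
    simp only [Pi.smul_apply, smul_eq_mul]
    ring

theorem coercive_alt_smul (s : ℝ) (u : FPA.T3) (hu : FPA.Alt3 u) : FPA.Alt3 (s • u) := by
  refine ⟨fun a b c => ?_, fun a b c => ?_⟩
  · simp only [Pi.smul_apply, smul_eq_mul]
    rw [hu.1 a b c]
    ring
  · simp only [Pi.smul_apply, smul_eq_mul]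
    rw [hu.2 a b c]
    ring

theorem coercive_cont (g : Geo) :
    Continuous fun p : M × FPA.T3 => FPA.Tform (Kx g p.1) p.2 := by
  have hK : ∀ a b c d, Continuous fun p : M × FPA.T3 => Kx g p.1 a b c d := by
    intro a b c d
    exact (sm_cont _ (FPF.Rm (FD g) a b d c).2).comp continuous_fst
  have hu : ∀ a b c, Continuous fun p : M × FPA.T3 => p.2 a b c := by
    intro a b c
    exact (coercive_apply3 a b c).comp continuous_snd
  unfold FPA.Tform
  refine Continuous.add (Continuous.mul continuous_const ?_) ?_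
  · refine continuous_finsetSum _ fun i _ => continuous_finsetSum _ fun j _ =>
      continuous_finsetSum _ fun f _ => (hK _ _ _ _).mul ?_
    exact continuous_finsetSum _ fun k _ => continuous_finsetSum _ fun l _ =>
      (hu _ _ _).mul (hu _ _ _)
  · refine continuous_finsetSum _ fun i _ => continuous_finsetSum _ fun j _ =>
      continuous_finsetSum _ fun k _ => continuous_finsetSum _ fun f _ => (hK _ _ _ _).mul ?_
    exact continuous_finsetSum _ fun l _ => (hu _ _ _).mul (hu _ _ _)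

theorem coercive_compact : IsCompact {u : FPA.T3 | FPA.Alt3 u ∧ ∑ a, ∑ b, ∑ c, u a b c ^ 2 = 1} := by
  have hu : ∀ a b c, Continuous fun p : FPA.T3 => p a b c := by
    intro a b c
    exact coercive_apply3 a b c
  refine IsCompact.of_isClosed_subset (isCompact_closedBall (0 : FPA.T3) 1) ?_ ?_
  · have h1 : IsClosed {u : FPA.T3 | ∀ a b c, u a b c = - u b a c} := by
      simp only [Set.setOf_forall]
      exact isClosed_iInter fun a => isClosed_iInter fun b => isClosed_iInter fun c =>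
        isClosed_eq (hu _ _ _) (hu _ _ _).neg
    have h2 : IsClosed {u : FPA.T3 | ∀ a b c, u a b c = - u a c b} := by
      simp only [Set.setOf_forall]
      exact isClosed_iInter fun a => isClosed_iInter fun b => isClosed_iInter fun c =>
        isClosed_eq (hu _ _ _) (hu _ _ _).neg
    have h3 : IsClosed {u : FPA.T3 | ∑ a, ∑ b, ∑ c, u a b c ^ 2 = 1} := by
      refine isClosed_eq ?_ continuous_const
      exact continuous_finsetSum _ fun a _ => continuous_finsetSum _ fun b _ =>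
        continuous_finsetSum _ fun c _ => (hu _ _ _).pow 2
    exact (h1.inter h2).inter h3
  · rintro u ⟨_, hN⟩
    rw [mem_closedBall_zero_iff]
    refine (pi_norm_le_iff_of_nonneg zero_le_one).2 fun a => ?_
    refine (pi_norm_le_iff_of_nonneg zero_le_one).2 fun b => ?_
    refine (pi_norm_le_iff_of_nonneg zero_le_one).2 fun c => ?_
    have h1 := coercive_le_N u a b c
    rw [hN] at h1
    rw [Real.norm_eq_abs]
    exact (sq_le_one_iff_abs_le_one _).1 h1

theorem coercive (g : Geo) (h : ∀ x, FPA.FourPos (Kx g x)) : ∃ c : ℝ, 0 < c ∧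
    ∀ x (u : FPA.T3), FPA.Alt3 u →
      c * ∑ a, ∑ b, ∑ c, u a b c ^ 2 ≤ FPA.Tform (Kx g x) u := by
  obtain ⟨K0, hK0⟩ : ∃ K0 : Set FPA.T3, K0 =
      {u : FPA.T3 | FPA.Alt3 u ∧ ∑ a, ∑ b, ∑ c, u a b c ^ 2 = 1} := ⟨_, rfl⟩
  have hc : IsCompact ((Set.univ : Set M) ×ˢ K0) := by
    rw [hK0]
    exact isCompact_univ.prod coercive_compact
  have hmin : ∃ c : ℝ, 0 < c ∧ ∀ x, ∀ u ∈ K0, c ≤ FPA.Tform (Kx g x) u := by
    rcases ((Set.univ : Set M) ×ˢ K0).eq_empty_or_nonempty with he | he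
    · refine ⟨1, one_pos, fun x u hu => ?_⟩
      have : (x, u) ∈ ((Set.univ : Set M) ×ˢ K0) := ⟨Set.mem_univ _, hu⟩
      rw [he] at this
      exact this.elim
    · obtain ⟨p, hp, hpm⟩ := hc.exists_isMinOn he (coercive_cont g).continuousOn
      refine ⟨FPA.Tform (Kx g p.1) p.2, ?_, fun x u hu => ?_⟩
      · have h1 := hp.2
        rw [hK0] at h1
        refine FPA.T_pos _ (Kx_curv g p.1) (h p.1) p.2 h1.1 ?_
        intro h0
        have h2 := h1.2
        rw [h0] at h2
        simp at h2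
      · have hm : (x, u) ∈ ((Set.univ : Set M) ×ˢ K0) := Set.mk_mem_prod (Set.mem_univ x) hu
        have h5 := isMinOn_iff.1 hpm (x, u) hm
        exact h5
  obtain ⟨c, hc0, hcm⟩ := hmin
  refine ⟨c, hc0, fun x u hu => ?_⟩
  obtain ⟨n, hn⟩ : ∃ n : ℝ, n = ∑ a, ∑ b, ∑ c, u a b c ^ 2 := ⟨_, rfl⟩
  rw [← hn]
  have hn0 : 0 ≤ n := by rw [hn]; exact coercive_N_nonneg u
  rcases hn0.eq_or_lt with h0 | h0
  · have hu0 : u = 0 := by
      funext a b c
      have h1 := coercive_le_N u a b c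
      rw [← hn, ← h0] at h1
      have h2 : u a b c ^ 2 = 0 := le_antisymm h1 (sq_nonneg _)
      exact pow_eq_zero_iff (two_ne_zero) |>.1 h2
    have h2 := coercive_T_smul (Kx g x) 0 u
    rw [zero_smul] at h2
    rw [← h0, hu0, h2]
    simp
  · obtain ⟨s, hs⟩ : ∃ s : ℝ, s = (Real.sqrt n)⁻¹ := ⟨_, rfl⟩
    have hs2 : s ^ 2 * n = 1 := by
      rw [hs, inv_pow, Real.sq_sqrt hn0]
      exact inv_mul_cancel₀ h0.ne'
    have hmem : s • u ∈ K0 := by
      rw [hK0]
      refine ⟨coercive_alt_smul s u hu, ?_⟩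
      rw [coercive_N_smul, ← hn, hs2]
    have h3 := hcm x _ hmem
    rw [coercive_T_smul] at h3
    calc c * n ≤ (s ^ 2 * FPA.Tform (Kx g x) u) * n := mul_le_mul_of_nonneg_right h3 hn0
      _ = (s ^ 2 * n) * FPA.Tform (Kx g x) u := by ring
      _ = FPA.Tform (Kx g x) u := by rw [hs2, one_mul]

end FPT
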