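import Pool.Agent.Helper427.FPF.Defs
import Pool.Agent.Helper427.FPM.Defs
import Pool.Agent.Helper427.FPM.P_sm_basic
import Pool.Agent.Helper427.FPM.P_E_sm
import Pool.Agent.Helper427.FPM.P_E_alg
import Pool.Agent.Helper427.FPT.Defs
import Pool.Agent.Helper427.FPT.P_Gam_anti
import Pool.Agent.Helper427.FPT.P_Gam_tors
import Pool.Agent.Helper427.FPT.P_Gam_ind
import Pool.Agent.Helper427.FPM.P_mu_prob
import Pool.Agent.Helper427.FPM.P_sm_cont
import Pool.Agent.Helper427.FPM.P_Jm_sm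
import Pool.Agent.Helper427.FPT.Defs2
import Pool.Agent.Helper427.FPT.P_bb_inv
import Pool.Agent.Helper427.FPT.P_br_Cc
import Pool.Agent.Helper427.FPT.P_bb_eD
import Pool.Agent.Helper427.FPT.P_Gam_sub

open scoped Quaternion ContDiff
open MeasureTheory FPM Filter Topology
namespace FPT



theorem div_formula_eD (g : Geo) (α : Fin 6) (f : SmA) :
    eD g α f = ∑ i, g.a α i * ED i f := by
  unfold eD
  simp only [Fin.sum_univ_six, Derivation.add_apply, Derivation.smul_apply, smul_eq_mul]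

theorem div_formula_cst (k j : Fin 6) : cst k j k = 0 := by
  unfold cst
  rw [if_neg, if_neg]
  · revert k j; decide
  · revert k j; decide

theorem div_formula_Gam (g : Geo) (a γ : Fin 6) : Gam g a γ a = Cc g a γ a := by
  have hs := Gam_sub g a γ a
  have ha := Gam_anti g γ a a
  have h2 : Gam g γ a a + Gam g γ a a = 0 := by
    nth_rewrite 1 [ha]
    exact neg_add_cancel _
  have h3 : Gam g γ a a = (1 / 2 : ℝ) • (Gam g γ a a + Gam g γ a a) := by
    rw [← two_smul ℝ (Gam g γ a a), smul_smul]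
    norm_num
  rw [h2, smul_zero] at h3
  rw [h3, sub_zero] at hs
  exact hs

theorem div_formula_zero (g : Geo) (γ k : Fin 6) :
    ∑ a, (∑ i, ∑ j, g.a a i * g.a γ j * cs (cst i j k)) * bb g k a = 0 := by
  have h1 : ∀ a, (∑ i, ∑ j, g.a a i * g.a γ j * cs (cst i j k)) * bb g k a =
      ∑ i, ∑ j, (bb g k a * g.a a i) * (g.a γ j * cs (cst i j k)) := by
    intro a
    rw [Finset.sum_mul]
    refine Finset.sum_congr rfl fun i _ => ?_
    rw [Finset.sum_mul]
    refine Finset.sum_congr rfl fun j _ => ?_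
    ring
  rw [Finset.sum_congr rfl fun a _ => h1 a, Finset.sum_comm]
  refine Finset.sum_eq_zero fun i _ => ?_
  rw [Finset.sum_comm]
  refine Finset.sum_eq_zero fun j _ => ?_
  rw [← Finset.sum_mul, (bb_inv g).1 k i]
  by_cases hk : k = i
  · subst hk
    rw [div_formula_cst]
    simp [cs]
  · rw [if_neg hk, zero_mul]

theorem div_formula_D (g : Geo) (γ : Fin 6) : ∑ a, Gam g a γ a =
    ∑ k, ED k (g.a γ k) - ∑ k, ∑ a, bb g k a * eD g γ (g.a a k) := by
  have h1 : ∀ a, Gam g a γ a = ∑ k, (bb g k a * eD g a (g.a γ k) - bb g k a * eD g γ (g.a a k) +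
      (∑ i, ∑ j, g.a a i * g.a γ j * cs (cst i j k)) * bb g k a) := by
    intro a
    rw [div_formula_Gam, (br_Cc g).2.1 a γ a]
    refine Finset.sum_congr rfl fun k _ => ?_
    unfold br
    ring
  rw [Finset.sum_congr rfl fun a _ => h1 a, Finset.sum_comm]
  have h2 : ∀ k, ∑ a, (bb g k a * eD g a (g.a γ k) - bb g k a * eD g γ (g.a a k) +
      (∑ i, ∑ j, g.a a i * g.a γ j * cs (cst i j k)) * bb g k a) =
      ED k (g.a γ k) - ∑ a, bb g k a * eD g γ (g.a a k) := by
    intro k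
    rw [Finset.sum_add_distrib, Finset.sum_sub_distrib, div_formula_zero, add_zero, bb_eD]
  rw [Finset.sum_congr rfl fun k _ => h2 k, Finset.sum_sub_distrib]

theorem div_formula_rho (g : Geo) (ρ : SmA) (hρ : IsDensity g ρ) (α : Fin 6) :
    ∑ i, g.a α i * ED i ρ = - (ρ * ∑ k, ∑ c, bb g k c * eD g α (g.a c k)) := by
  have h1 : ∀ i, g.a α i * ED i ρ =
      ∑ k, ∑ c, (-(ρ * (bb g k c * (g.a α i * ED i (g.a c k))))) := by
    intro i
    rw [hρ.2 i]
    simp only [Finset.sum_neg_distrib, ← Finset.mul_sum]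
    have e : g.a α i * -(ρ * ∑ k, ∑ c, bb g k c * ED i (g.a c k)) =
      -(ρ * (g.a α i * ∑ k, ∑ c, bb g k c * ED i (g.a c k))) := by ring
    rw [e]
    congr 2
    rw [Finset.mul_sum]
    refine Finset.sum_congr rfl fun k _ => ?_
    rw [Finset.mul_sum]
    refine Finset.sum_congr rfl fun c _ => ?_
    ring
  rw [Finset.sum_congr rfl fun i _ => h1 i, Finset.sum_comm]
  rw [Finset.mul_sum, ← Finset.sum_neg_distrib]
  refine Finset.sum_congr rfl fun k _ => ?_
  rw [Finset.sum_comm, Finset.mul_sum, ← Finset.sum_neg_distrib]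
  refine Finset.sum_congr rfl fun c _ => ?_
  rw [div_formula_eD, Finset.mul_sum, Finset.mul_sum, ← Finset.sum_neg_distrib]

theorem div_formula_L (g : Geo) (X : Fin 6 → SmA) :
    FPF.dv (FD g) X = ∑ α, (eD g α (X α) + (∑ a, Gam g a α a) * X α) := by
  have h1 : ∀ a, FPF.nab1 (FD g) X a a = eD g a (X a) + ∑ γ, Gam g a γ a * X γ := by
    intro a
    show eD g a (X a) - ∑ γ, Gam g a a γ * X γ = _
    rw [sub_eq_add_neg, ← Finset.sum_neg_distrib]
    congr 1
    refine Finset.sum_congr rfl fun γ _ => ?_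
    rw [Gam_anti g a a γ]
    ring
  unfold FPF.dv
  rw [Finset.sum_congr rfl fun a _ => h1 a, Finset.sum_add_distrib, Finset.sum_add_distrib]
  congr 1
  rw [Finset.sum_comm]
  refine Finset.sum_congr rfl fun γ _ => ?_
  rw [Finset.sum_mul]

theorem div_formula_R (g : Geo) (ρ : SmA) (X : Fin 6 → SmA) :
    ∑ i, ED i (ρ * ∑ α, g.a α i * X α) =
      ∑ α, ((∑ i, g.a α i * ED i ρ) * X α + ρ * (∑ i, ED i (g.a α i)) * X α +
        ρ * eD g α (X α)) := by
  have h1 : ∀ i, ED i (ρ * ∑ α, g.a α i * X α) =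
      ∑ α, (g.a α i * ED i ρ * X α + ρ * ED i (g.a α i) * X α + ρ * (g.a α i * ED i (X α))) := by
    intro i
    rw [Derivation.leibniz, map_sum, smul_eq_mul, smul_eq_mul, Finset.mul_sum, Finset.sum_mul,
      ← Finset.sum_add_distrib]
    refine Finset.sum_congr rfl fun α _ => ?_
    rw [Derivation.leibniz, smul_eq_mul, smul_eq_mul]
    ring
  rw [Finset.sum_congr rfl fun i _ => h1 i, Finset.sum_comm]
  refine Finset.sum_congr rfl fun α _ => ?_
  rw [Finset.sum_add_distrib, Finset.sum_add_distrib, div_formula_eD, Finset.sum_mul,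
    Finset.mul_sum, Finset.sum_mul, Finset.mul_sum]

theorem div_formula (g : Geo) (ρ : SmA) (hρ : IsDensity g ρ) (X : Fin 6 → SmA) :
    ρ * FPF.dv (FD g) X = ∑ i, ED i (ρ * ∑ α, g.a α i * X α) := by
  rw [div_formula_R, div_formula_L, Finset.mul_sum]
  refine Finset.sum_congr rfl fun α _ => ?_
  rw [div_formula_rho g ρ hρ, div_formula_D]
  ring

end FPT
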