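import Pool.Agent.Helper427.FPF.Defs
import Pool.Agent.Helper427.FPM.Defs
import Pool.Agent.Helper427.FPM.P_sm_basic
import Pool.Agent.Helper427.FPM.P_E_sm
import Pool.Agent.Helper427.FPM.P_E_alg
import Pool.Agent.Helper427.FPT.Defs
import Pool.Agent.Helper427.FPT.P_Gam_anti
import Pool.Agent.Helper427.FPT.P_Gam_tors
import Pool.Agent.Helper427.FPT.P_Gam_ind
import Pool.Agent.Helper427.FPM.P_mu_prob
import Pool.Agent.Helper427.FPM.P_sm_cont
import Pool.Agent.Helper427.FPM.P_Jm_sm
import Pool.Agent.Helper427.FPT.Defs2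
import Pool.Agent.Helper427.FPT.P_div_formula
import Pool.Agent.Helper427.FPM.P_int_E
import Pool.Agent.Helper427.FPT.P_intA_basic

open scoped Quaternion ContDiff
open MeasureTheory FPM Filter Topology
namespace FPT



theorem divergence (g : Geo) (ρ : SmA) (hρ : IsDensity g ρ) (X : Fin 6 → SmA) :
    intA (ρ * FPF.dv (FD g) X) = 0 := by
  rw [div_formula g ρ hρ X, map_sum]
  exact Finset.sum_eq_zero fun i _ => intA_basic.2.2.1 i _

end FPT
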