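import Pool.Agent.Helper427.FPF.Defs
import Pool.Agent.Helper427.FPM.Defs
import Pool.Agent.Helper427.FPM.P_sm_basic
import Pool.Agent.Helper427.FPM.P_E_sm
import Pool.Agent.Helper427.FPM.P_E_alg
import Pool.Agent.Helper427.FPT.Defs
import Pool.Agent.Helper427.FPT.P_Gam_anti
import Pool.Agent.Helper427.FPT.P_Gam_tors
import Pool.Agent.Helper427.FPT.P_Gam_ind
import Pool.Agent.Helper427.FPM.P_mu_prob
import Pool.Agent.Helper427.FPM.P_sm_cont
import Pool.Agent.Helper427.FPM.P_Jm_sm
import Pool.Agent.Helper427.FPT.Defs2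
import Pool.Agent.Helper427.FPA.Defs

open scoped Quaternion ContDiff
open MeasureTheory FPM Filter Topology
namespace FPT



theorem link_T (g : Geo) (u : Ten) (x : M) :
    ev x (FPF.Tform (fun a b c d => FPF.Rm (FD g) a b d c) u)
      = FPA.Tform (Kx g x) (fun a b c => ev x (u a b c)) := by
  unfold FPF.Tform FPA.Tform Kx
  simp only [map_sum, map_mul, map_add, map_smul, smul_eq_mul]

end FPT
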