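import Pool.Agent.Helper427.FPF.Defs
import Pool.Agent.Helper427.FPM.Defs
import Pool.Agent.Helper427.FPM.P_sm_basic
import Pool.Agent.Helper427.FPM.P_E_sm
import Pool.Agent.Helper427.FPM.P_E_alg
import Pool.Agent.Helper427.FPT.Defs
import Pool.Agent.Helper427.FPT.P_Gam_anti
import Pool.Agent.Helper427.FPT.P_Gam_tors
import Pool.Agent.Helper427.FPT.P_Gam_ind
import Pool.Agent.Helper427.FPM.P_mu_prob
import Pool.Agent.Helper427.FPM.P_sm_cont
import Pool.Agent.Helper427.FPM.P_Jm_sm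
import Pool.Agent.Helper427.FPT.Defs2
import Pool.Agent.Helper427.FPA.Defs
import Pool.Agent.Helper427.FPF.P_bochner
import Pool.Agent.Helper427.FPM.P_int_E
import Pool.Agent.Helper427.FPT.P_intA_basic
import Pool.Agent.Helper427.FPT.P_divergence
import Pool.Agent.Helper427.FPT.P_link_T
import Pool.Agent.Helper427.FPT.P_coercive

open scoped Quaternion ContDiff
open MeasureTheory FPM Filter Topology
namespace FPT



/-- integrated Bochner inequality -/
theorem bochner_int (g : Geo) (ρ : SmA) (hρ : IsDensity g ρ)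
    (h : ∀ x, FPA.FourPos (Kx g x)) : ∃ c : ℝ, 0 < c ∧
    ∀ u : Ten, FPF.Alt3 u → c * Bf ρ u u ≤ En ρ (FPF.d3 (FD g) u, FPF.del3 (FD g) u) := by
  obtain ⟨c, hc, hco⟩ := coercive g h
  refine ⟨c, hc, fun u hu => ?_⟩
  have hB := FPF.bochner (FD g) u hu
  have hE : En ρ (FPF.d3 (FD g) u, FPF.del3 (FD g) u) =
      intA (ρ * ((1/24 : ℝ) • (∑ a, ∑ b, ∑ c, ∑ d, FPF.d3 (FD g) u a b c d ^ 2)
        + (1/2 : ℝ) • (∑ b, ∑ c, FPF.del3 (FD g) u b c ^ 2))) := by
    unfold En
    rw [mul_add, map_add, mul_smul_comm, mul_smul_comm, map_smul, map_smul, smul_eq_mul,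
      smul_eq_mul]
  rw [hE, hB, mul_add, mul_add, map_add, map_add, divergence g ρ hρ, add_zero, mul_smul_comm,
    map_smul, smul_eq_mul]
  have h1 : 0 ≤ intA (ρ * ∑ a, ∑ b, ∑ c, ∑ d, FPF.nab3 (FD g) u a b c d ^ 2) := by
    apply intA_basic.1
    intro x
    rw [map_mul]
    apply mul_nonneg (hρ.1 x).le
    simp only [map_sum, map_pow]
    exact Finset.sum_nonneg fun _ _ => Finset.sum_nonneg fun _ _ => Finset.sum_nonneg
      fun _ _ => Finset.sum_nonneg fun _ _ => sq_nonneg _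
  have h2 : c * Bf ρ u u ≤
      intA (ρ * FPF.Tform (fun a b c d => FPF.Rm (FD g) a b d c) u) := by
    have h3 : c * Bf ρ u u = intA (c • (ρ * ∑ a, ∑ b, ∑ c, u a b c * u a b c)) := by
      unfold Bf
      rw [map_smul, smul_eq_mul]
    rw [h3]
    apply intA_basic.2.1
    intro x
    have halt : FPA.Alt3 (fun a b c => ev x (u a b c)) := by
      refine ⟨fun a b c => ?_, fun a b c => ?_⟩
      · show ev x (u a b c) = - ev x (u b a c)
        rw [hu.1 a b c, map_neg]
      · show ev x (u a b c) = - ev x (u a c b)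
        rw [hu.2 a b c, map_neg]
    have h4 := hco x (fun a b c => ev x (u a b c)) halt
    have h5 : ev x (c • (ρ * ∑ a, ∑ b, ∑ c, u a b c * u a b c)) =
        ev x ρ * (c * ∑ a, ∑ b, ∑ c, (ev x (u a b c)) ^ 2) := by
      rw [map_smul, map_mul, smul_eq_mul]
      simp only [map_sum, map_mul, sq]
      ring
    rw [h5, map_mul, link_T]
    exact mul_le_mul_of_nonneg_left h4 (hρ.1 x).le
  linarith

end FPT
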