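import Pool.Agent.Helper427.FPF.Defs
import Pool.Agent.Helper427.FPM.Defs
import Pool.Agent.Helper427.FPM.P_sm_basic
import Pool.Agent.Helper427.FPM.P_E_sm
import Pool.Agent.Helper427.FPM.P_E_alg
import Pool.Agent.Helper427.FPT.Defs
import Pool.Agent.Helper427.FPT.P_Gam_anti
import Pool.Agent.Helper427.FPT.P_Gam_tors
import Pool.Agent.Helper427.FPT.P_Gam_ind
import Pool.Agent.Helper427.FPM.P_mu_prob
import Pool.Agent.Helper427.FPM.P_sm_cont
import Pool.Agent.Helper427.FPM.P_Jm_sm
import Pool.Agent.Helper427.FPT.Defs2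
import Pool.Agent.Helper427.FPM.P_comm_mul
import Pool.Agent.Helper427.FPM.P_comm_E
import Pool.Agent.Helper427.FPT.P_q2_props

open scoped Quaternion ContDiff
open MeasureTheory FPM Filter Topology
namespace FPT



theorem good_basic_le (u : Ten) (a b c : Fin 6) :
    q2 (u a b c) ≤ ∑ a, ∑ b, ∑ c, q2 (u a b c) := by
  have h0 := q2_props.2.1
  calc q2 (u a b c) ≤ ∑ c, q2 (u a b c) :=
        Finset.single_le_sum (f := fun c => q2 (u a b c)) (fun _ _ => h0 _) (Finset.mem_univ c)
    _ ≤ ∑ b, ∑ c, q2 (u a b c) :=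
        Finset.single_le_sum (f := fun b => ∑ c, q2 (u a b c))
          (fun _ _ => Finset.sum_nonneg fun _ _ => h0 _) (Finset.mem_univ b)
    _ ≤ ∑ a, ∑ b, ∑ c, q2 (u a b c) :=
        Finset.single_le_sum (f := fun a => ∑ b, ∑ c, q2 (u a b c))
          (fun _ _ => Finset.sum_nonneg fun _ _ => Finset.sum_nonneg fun _ _ => h0 _)
          (Finset.mem_univ a)

theorem good_basic :
    (∀ (p : SmA) (i a b c : Fin 6), GoodT (fun u => p * ED i (u a b c))) ∧
    (∀ (q : SmA) (a b c : Fin 6), GoodT (fun u => q * u a b c)) := by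
  constructor
  · intro p i a b c
    obtain ⟨C, hC, h1, h2⟩ := comm_E p.1 p.2 i
    have key : ∀ (m : ℕ) (u : Ten), q2 (p * ED i (JT m u a b c) - JA m (p * ED i (u a b c))) =
        n2 (fun x => p.1 x * E i (Jm m (u a b c).1) x
          - Jm m (fun z => p.1 z * E i (u a b c).1 z) x) := by
      intro m u
      rw [q2_props.1]
      rfl
    refine ⟨⟨C, hC, fun m hm u => ?_⟩, fun u => ?_⟩
    · beta_reduce
      rw [key m u]
      refine (h1 m hm _ (u a b c).2).trans ?_
      refine mul_le_mul_of_nonneg_left ?_ hC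
      rw [← q2_props.1]
      exact good_basic_le u a b c
    · beta_reduce
      simp only [key]
      exact h2 _ (u a b c).2
  · intro p a b c
    obtain ⟨C, hC, h1, h2⟩ := comm_mul p.1 p.2
    have key : ∀ (m : ℕ) (u : Ten), q2 (p * (JT m u a b c) - JA m (p * (u a b c))) =
        n2 (fun x => p.1 x * (Jm m (u a b c).1) x
          - Jm m (fun z => p.1 z * (u a b c).1 z) x) := by
      intro m u
      rw [q2_props.1]
      rfl
    refine ⟨⟨C, hC, fun m hm u => ?_⟩, fun u => ?_⟩
    · beta_reduce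
      rw [key m u]
      refine (h1 m hm _ (sm_cont _ (u a b c).2)).trans ?_
      refine mul_le_mul_of_nonneg_left ?_ hC
      rw [← q2_props.1]
      exact good_basic_le u a b c
    · beta_reduce
      simp only [key]
      exact h2 _ (sm_cont _ (u a b c).2)

end FPT
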