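import Pool.Agent.Helper427.FPF.Defs
import Pool.Agent.Helper427.FPM.Defs
import Pool.Agent.Helper427.FPM.P_sm_basic
import Pool.Agent.Helper427.FPM.P_E_sm
import Pool.Agent.Helper427.FPM.P_E_alg
import Pool.Agent.Helper427.FPT.Defs
import Pool.Agent.Helper427.FPT.P_Gam_anti
import Pool.Agent.Helper427.FPT.P_Gam_tors
import Pool.Agent.Helper427.FPT.P_Gam_ind
import Pool.Agent.Helper427.FPM.P_mu_prob
import Pool.Agent.Helper427.FPM.P_sm_cont
import Pool.Agent.Helper427.FPM.P_Jm_sm
import Pool.Agent.Helper427.FPT.Defs2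
import Pool.Agent.Helper427.FPT.P_q2_props

open scoped Quaternion ContDiff
open MeasureTheory FPM Filter Topology
namespace FPT



theorem good_closed_zero : GoodT (fun _ => 0) := by
  have h0 : q2 (0 : SmA) = 0 := by unfold q2; simp
  constructor
  · refine ⟨0, le_rfl, fun m _ u => ?_⟩
    simp only [map_zero, sub_zero, zero_mul]
    exact h0.le
  · intro u
    simp only [map_zero, sub_zero, h0]
    exact tendsto_const_nhds

theorem good_closed_add (S T : Ten → SmA) (hS : GoodT S) (hT : GoodT T) :
    GoodT (fun u => S u + T u) := by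
  obtain ⟨⟨C, hC, h1⟩, h2⟩ := hS
  obtain ⟨⟨D, hD, h3⟩, h4⟩ := hT
  have key : ∀ m u, q2 ((S (JT m u) + T (JT m u)) - JA m (S u + T u))
      ≤ 2 * q2 (S (JT m u) - JA m (S u)) + 2 * q2 (T (JT m u) - JA m (T u)) := by
    intro m u
    have : (S (JT m u) + T (JT m u)) - JA m (S u + T u)
        = (S (JT m u) - JA m (S u)) + (T (JT m u) - JA m (T u)) := by
      rw [map_add]; abel
    rw [this]
    exact q2_props.2.2.1 _ _
  constructor
  · refine ⟨2 * C + 2 * D, by linarith, fun m hm u => ?_⟩
    have a1 := h1 m hm u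
    have a2 := h3 m hm u
    have a3 := key m u
    calc _ ≤ _ := a3
      _ ≤ (2 * C + 2 * D) * ∑ a, ∑ b, ∑ c, q2 (u a b c) := by linarith
  · intro u
    refine squeeze_zero (fun m => q2_props.2.1 _) (fun m => key m u) ?_
    have := ((h2 u).const_mul 2).add ((h4 u).const_mul 2)
    simpa using this

theorem good_closed_neg (T : Ten → SmA) (hT : GoodT T) : GoodT (fun u => - T u) := by
  obtain ⟨⟨D, hD, h3⟩, h4⟩ := hT
  have key : ∀ m u, q2 (- T (JT m u) - JA m (- T u)) = q2 (T (JT m u) - JA m (T u)) := by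
    intro m u
    have : - T (JT m u) - JA m (- T u) = -(T (JT m u) - JA m (T u)) := by
      rw [map_neg]; abel
    rw [this]
    exact q2_props.2.2.2 _
  constructor
  · refine ⟨D, hD, fun m hm u => ?_⟩
    have := key m u
    rw [this]
    exact h3 m hm u
  · intro u
    refine (h4 u).congr fun m => ?_
    exact (key m u).symm

theorem good_closed :
    (GoodT (fun _ => 0)) ∧ (∀ S T, GoodT S → GoodT T → GoodT (fun u => S u + T u)) ∧
    (∀ S T, GoodT S → GoodT T → GoodT (fun u => S u - T u)) ∧
    (∀ (T : Fin 6 → Ten → SmA), (∀ i, GoodT (T i)) → GoodT (fun u => ∑ i, T i u)) := by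
  refine ⟨good_closed_zero, good_closed_add, ?_, ?_⟩
  · intro S T hS hT
    have := good_closed_add S (fun u => - T u) hS (good_closed_neg T hT)
    simpa only [sub_eq_add_neg] using this
  · intro T hT
    simp only [Fin.sum_univ_six]
    exact good_closed_add _ _ (good_closed_add _ _ (good_closed_add _ _ (good_closed_add _ _
      (good_closed_add _ _ (hT 0) (hT 1)) (hT 2)) (hT 3)) (hT 4)) (hT 5)


end FPT
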