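import Pool.Agent.Helper427.FPF.Defs
import Pool.Agent.Helper427.FPM.Defs
import Pool.Agent.Helper427.FPM.P_sm_basic
import Pool.Agent.Helper427.FPM.P_E_sm
import Pool.Agent.Helper427.FPM.P_E_alg
import Pool.Agent.Helper427.FPT.Defs
import Pool.Agent.Helper427.FPT.P_Gam_anti
import Pool.Agent.Helper427.FPT.P_Gam_tors
import Pool.Agent.Helper427.FPT.P_Gam_ind
import Pool.Agent.Helper427.FPM.P_mu_prob
import Pool.Agent.Helper427.FPM.P_sm_cont
import Pool.Agent.Helper427.FPM.P_Jm_sm
import Pool.Agent.Helper427.FPT.Defs2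
import Pool.Agent.Helper427.FPT.P_good_basic
import Pool.Agent.Helper427.FPT.P_good_closed

open scoped Quaternion ContDiff
open MeasureTheory FPM Filter Topology
namespace FPT



theorem good_d3_eD (g : Geo) (a b c d : Fin 6) :
    GoodT (fun u => (FD g).e a (u b c d)) := by
  have h : (fun u : Ten => (FD g).e a (u b c d)) = fun u => ∑ i, g.a a i * ED i (u b c d) := by
    funext u
    show (∑ i, g.a a i • ED i) (u b c d) = _
    have h2 : ∀ (s : Finset (Fin 6)) (f : SmA),
        (∑ i ∈ s, g.a a i • ED i) f = ∑ i ∈ s, g.a a i * ED i f := by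
      intro s f
      induction s using Finset.induction_on with
      | empty => simp
      | insert i s hi ih =>
        rw [Finset.sum_insert hi, Finset.sum_insert hi, Derivation.add_apply, ih]
        rfl
    exact h2 _ _
  rw [h]
  exact good_closed.2.2.2 _ (fun i => good_basic.1 _ _ _ _ _)

theorem good_d3_nab (g : Geo) (a b c d : Fin 6) :
    GoodT (fun u => FPF.nab3 (FD g) u a b c d) := by
  obtain ⟨-, -, hsub, hsum⟩ := good_closed
  obtain ⟨-, hmul⟩ := good_basic
  have h1 : GoodT (fun u => ∑ k, (FD g).Γ a b k * u k c d) := hsum _ (fun k => hmul _ _ _ _)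
  have h2 : GoodT (fun u => ∑ k, (FD g).Γ a c k * u b k d) := hsum _ (fun k => hmul _ _ _ _)
  have h3 : GoodT (fun u => ∑ k, (FD g).Γ a d k * u b c k) := hsum _ (fun k => hmul _ _ _ _)
  exact hsub _ _ (hsub _ _ (hsub _ _ (good_d3_eD g a b c d) h1) h2) h3

theorem good_d3 (g : Geo) (a b c d : Fin 6) :
    GoodT (fun u => FPF.d3 (FD g) u a b c d) := by
  obtain ⟨-, hadd, hsub, -⟩ := good_closed
  exact hsub _ _ (hadd _ _ (hsub _ _ (good_d3_nab g a b c d) (good_d3_nab g b a c d))
    (good_d3_nab g c a b d)) (good_d3_nab g d a b c)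

end FPT
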