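import Pool.Agent.Helper427.FPF.Defs
import Pool.Agent.Helper427.FPM.Defs
import Pool.Agent.Helper427.FPM.P_sm_basic
import Pool.Agent.Helper427.FPM.P_E_sm
import Pool.Agent.Helper427.FPM.P_E_alg
import Pool.Agent.Helper427.FPT.Defs
import Pool.Agent.Helper427.FPT.P_Gam_anti
import Pool.Agent.Helper427.FPT.P_Gam_tors
import Pool.Agent.Helper427.FPT.P_Gam_ind
import Pool.Agent.Helper427.FPM.P_mu_prob
import Pool.Agent.Helper427.FPM.P_sm_cont
import Pool.Agent.Helper427.FPM.P_Jm_sm
import Pool.Agent.Helper427.FPT.Defs2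
import Pool.Agent.Helper427.FPT.P_good_basic
import Pool.Agent.Helper427.FPT.P_good_closed

open scoped Quaternion ContDiff
open MeasureTheory FPM Filter Topology
namespace FPT



theorem good_del3_e (g : Geo) (a : Fin 6) (f : SmA) :
    (FD g).e a f = ∑ i, g.a a i * ED i f := by
  show (∑ i, g.a a i • ED i : Derivation ℝ SmA SmA) f = _
  have : ∀ s : Finset (Fin 6), (∑ i ∈ s, g.a a i • ED i : Derivation ℝ SmA SmA) f =
      ∑ i ∈ s, g.a a i * ED i f := by
    intro s
    induction s using Finset.induction_on with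
    | empty => simp
    | insert i s hi ih =>
      rw [Finset.sum_insert hi, Finset.sum_insert hi, Derivation.add_apply, ih,
        Derivation.smul_apply, smul_eq_mul]
  exact this _

theorem good_del3_nab (g : Geo) (a b c d : Fin 6) :
    GoodT (fun u => FPF.nab3 (FD g) u a b c d) := by
  have h : (fun u : Ten => FPF.nab3 (FD g) u a b c d) = fun u =>
      (((∑ i, g.a a i * ED i (u b c d)) - ∑ k, (FD g).Γ a b k * u k c d)
        - ∑ k, (FD g).Γ a c k * u b k d) - ∑ k, (FD g).Γ a d k * u b c k := by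
    funext u
    unfold FPF.nab3
    rw [good_del3_e]
  rw [h]
  obtain ⟨-, -, hsub, hsum⟩ := good_closed
  obtain ⟨h1, h2⟩ := good_basic
  refine hsub _ _ (hsub _ _ (hsub _ _ ?_ ?_) ?_) ?_
  · exact hsum (fun i u => g.a a i * ED i (u b c d)) fun i => h1 _ _ _ _ _
  · exact hsum (fun k u => (FD g).Γ a b k * u k c d) fun i => h2 _ _ _ _
  · exact hsum (fun k u => (FD g).Γ a c k * u b k d) fun i => h2 _ _ _ _
  · exact hsum (fun k u => (FD g).Γ a d k * u b c k) fun i => h2 _ _ _ _


theorem good_del3 (g : Geo) (b c : Fin 6) :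
    GoodT (fun u => FPF.del3 (FD g) u b c) := by
  unfold FPF.del3
  exact good_closed.2.2.2 (fun a u => FPF.nab3 (FD g) u a a b c) fun a => good_del3_nab g a a b c

end FPT
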