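import Pool.Agent.Helper427.FPF.Defs
import Pool.Agent.Helper427.FPM.Defs
import Pool.Agent.Helper427.FPM.P_sm_basic
import Pool.Agent.Helper427.FPM.P_E_sm
import Pool.Agent.Helper427.FPM.P_E_alg
import Pool.Agent.Helper427.FPT.Defs
import Pool.Agent.Helper427.FPT.P_Gam_anti
import Pool.Agent.Helper427.FPT.P_Gam_tors
import Pool.Agent.Helper427.FPT.P_Gam_ind
import Pool.Agent.Helper427.FPM.P_mu_prob
import Pool.Agent.Helper427.FPM.P_sm_cont
import Pool.Agent.Helper427.FPM.P_Jm_sm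
import Pool.Agent.Helper427.FPT.Defs2

open scoped Quaternion ContDiff
open MeasureTheory FPM Filter Topology
namespace FPT



theorem lin_ops_sum {A : Type*} [CommRing A] [Algebra ℝ A] (r : ℝ) (Γ u v : Fin 6 → A) :
    ∑ g, Γ g * (r • u g + v g) = r • (∑ g, Γ g * u g) + ∑ g, Γ g * v g := by
  rw [Finset.smul_sum, ← Finset.sum_add_distrib]
  refine Finset.sum_congr rfl fun g _ => ?_
  rw [mul_add, mul_smul_comm]

theorem lin_ops_nab3 {A : Type*} [CommRing A] [Algebra ℝ A] (F : FPF.FrameData A) (r : ℝ)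
    (u v : Fin 6 → Fin 6 → Fin 6 → A) (a b c d : Fin 6) :
    FPF.nab3 F (r • u + v) a b c d = r • FPF.nab3 F u a b c d + FPF.nab3 F v a b c d := by
  unfold FPF.nab3
  simp only [Pi.add_apply, Pi.smul_apply]
  rw [lin_ops_sum, lin_ops_sum, lin_ops_sum, Derivation.map_add, Derivation.map_smul]
  simp only [smul_sub]
  abel

theorem lin_ops_nab2 {A : Type*} [CommRing A] [Algebra ℝ A] (F : FPF.FrameData A) (r : ℝ)
    (u v : Fin 6 → Fin 6 → A) (a b c : Fin 6) :
    FPF.nab2 F (r • u + v) a b c = r • FPF.nab2 F u a b c + FPF.nab2 F v a b c := by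
  unfold FPF.nab2
  simp only [Pi.add_apply, Pi.smul_apply]
  rw [lin_ops_sum, lin_ops_sum, Derivation.map_add, Derivation.map_smul]
  simp only [smul_sub]
  abel

theorem lin_ops_gen {A : Type*} [CommRing A] [Algebra ℝ A] (F : FPF.FrameData A) :
    (∀ (r : ℝ) u v, FPF.d3 F (r • u + v) = r • FPF.d3 F u + FPF.d3 F v) ∧
    (∀ (r : ℝ) u v, FPF.del3 F (r • u + v) = r • FPF.del3 F u + FPF.del3 F v) ∧
    (∀ (r : ℝ) β γ, FPF.d2 F (r • β + γ) = r • FPF.d2 F β + FPF.d2 F γ) := by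
  refine ⟨?_, ?_, ?_⟩
  · intro r u v
    funext a b c d
    simp only [Pi.add_apply, Pi.smul_apply]
    unfold FPF.d3
    simp only [lin_ops_nab3, smul_sub, smul_add]
    abel
  · intro r u v
    funext b c
    simp only [Pi.add_apply, Pi.smul_apply]
    unfold FPF.del3
    simp only [lin_ops_nab3]
    rw [Finset.sum_add_distrib, Finset.smul_sum]
  · intro r u v
    funext a b c
    simp only [Pi.add_apply, Pi.smul_apply]
    unfold FPF.d2
    simp only [lin_ops_nab2, smul_add]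
    abel

theorem lin_ops (g : Geo) :
    (∀ (r : ℝ) u v, FPF.d3 (FD g) (r • u + v) = r • FPF.d3 (FD g) u + FPF.d3 (FD g) v) ∧
    (∀ (r : ℝ) u v, FPF.del3 (FD g) (r • u + v) = r • FPF.del3 (FD g) u + FPF.del3 (FD g) v) ∧
    (∀ (r : ℝ) β γ, FPF.d2 (FD g) (r • β + γ) = r • FPF.d2 (FD g) β + FPF.d2 (FD g) γ) := by
  exact lin_ops_gen (FD g)

end FPT
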