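import Pool.Agent.Helper427.FPF.Defs
import Pool.Agent.Helper427.FPM.Defs
import Pool.Agent.Helper427.FPM.P_sm_basic
import Pool.Agent.Helper427.FPM.P_E_sm
import Pool.Agent.Helper427.FPM.P_E_alg
import Pool.Agent.Helper427.FPT.Defs
import Pool.Agent.Helper427.FPT.P_Gam_anti
import Pool.Agent.Helper427.FPT.P_Gam_tors
import Pool.Agent.Helper427.FPT.P_Gam_ind
import Pool.Agent.Helper427.FPM.P_mu_prob
import Pool.Agent.Helper427.FPM.P_sm_cont
import Pool.Agent.Helper427.FPM.P_Jm_sm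
import Pool.Agent.Helper427.FPT.Defs2
import Pool.Agent.Helper427.FPM.P_sm_inv
import Pool.Agent.Helper427.FPM.P_sm_sqrt
import Pool.Agent.Helper427.FPT.P_bb_inv
import Pool.Agent.Helper427.FPX.P_det_deriv

open scoped Quaternion ContDiff
open MeasureTheory FPM Filter Topology
namespace FPT



theorem rho_exists (g : Geo) : ∃ ρ : SmA, IsDensity g ρ := by
  obtain ⟨hb1, hb2⟩ := bb_inv g
  set N : Matrix (Fin 6) (Fin 6) SmA := Matrix.of g.a with hN
  set Bm : Matrix (Fin 6) (Fin 6) SmA := Matrix.of (bb g) with hBm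
  have hNB : N * Bm = 1 := by
    apply Matrix.ext
    intro i j
    rw [Matrix.mul_apply, Matrix.one_apply]
    exact hb2 i j
  have hadj : N.adjugate = N.det • Bm := by
    calc N.adjugate = N.adjugate * (N * Bm) := by rw [hNB, Matrix.mul_one]
      _ = (N.adjugate * N) * Bm := by rw [Matrix.mul_assoc]
      _ = N.det • Bm := by rw [Matrix.adjugate_mul, Matrix.smul_mul, Matrix.one_mul]
  have hdet : N.det * Bm.det = 1 := by rw [← Matrix.det_mul, hNB, Matrix.det_one]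
  have hS : ∀ i, ED i N.det = N.det * ∑ k, ∑ c, bb g k c * ED i (g.a c k) := by
    intro i
    rw [FPX.det_deriv, hadj, Finset.sum_comm, Finset.mul_sum]
    refine Finset.sum_congr rfl fun k _ => ?_
    rw [Finset.mul_sum]
    refine Finset.sum_congr rfl fun c _ => ?_
    rw [Matrix.smul_apply, smul_eq_mul, mul_assoc]
    rfl
  generalize N.det = Δ at hdet hS
  have hΔx : ∀ x, Δ.1 x ≠ 0 := by
    intro x h0
    have h1 := congrArg (ev x) hdet
    rw [map_mul, map_one, ev_apply, h0, zero_mul] at h1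
    exact zero_ne_one h1
  have hsq : Sm (fun x => Δ.1 x * Δ.1 x) := sm_basic.2.2 _ _ Δ.2 Δ.2
  have hinv : Sm (fun x => (Δ.1 x * Δ.1 x)⁻¹) :=
    sm_inv _ hsq (fun x => mul_self_ne_zero.2 (hΔx x))
  have hpos : ∀ x, 0 < (Δ.1 x * Δ.1 x)⁻¹ := fun x => inv_pos.2 (mul_self_pos.2 (hΔx x))
  have hsm : Sm (fun x => Real.sqrt ((Δ.1 x * Δ.1 x)⁻¹)) := sm_sqrt _ hinv hpos
  obtain ⟨ρ, hρdef⟩ : ∃ ρ : SmA, ρ.1 = fun x => Real.sqrt ((Δ.1 x * Δ.1 x)⁻¹) :=
    ⟨⟨_, hsm⟩, rfl⟩
  have hρ : ρ * ρ * (Δ * Δ) = 1 := by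
    apply ext_ev
    intro x
    rw [map_mul, map_mul, map_mul, map_one, ev_apply, ev_apply, hρdef]
    change Real.sqrt _ * Real.sqrt _ * (Δ.1 x * Δ.1 x) = 1
    rw [Real.mul_self_sqrt (hpos x).le, inv_mul_cancel₀ (mul_self_ne_zero.2 (hΔx x))]
  refine ⟨ρ, fun x => ?_, fun i => ?_⟩
  · rw [ev_apply, hρdef]
    exact Real.sqrt_pos.2 (hpos x)
  · have hSi := hS i
    generalize (∑ k, ∑ c, bb g k c * ED i (g.a c k)) = S at hSi
    have h1 := congrArg (ED i) hρ
    rw [Derivation.leibniz, Derivation.leibniz, Derivation.leibniz, Derivation.map_one_eq_zero,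
      hSi] at h1
    simp only [smul_eq_mul] at h1
    have h2 : 2 * (ED i ρ + ρ * S) = 0 := by
      linear_combination ρ * h1 - (2 * (ρ * S) + 2 * ED i ρ) * hρ
    have h3 : (2 : ℝ) • (ED i ρ + ρ * S) = 0 := by
      rw [two_smul, ← two_mul]; exact h2
    have h4 := (smul_eq_zero.1 h3).resolve_left two_ne_zero
    exact eq_neg_of_add_eq_zero_left h4

end FPT
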