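import Pool.Agent.Helper427.FPF.Defs
import Pool.Agent.Helper427.FPM.Defs
import Pool.Agent.Helper427.FPM.P_sm_basic
import Pool.Agent.Helper427.FPM.P_E_sm
import Pool.Agent.Helper427.FPM.P_E_alg
import Pool.Agent.Helper427.FPT.Defs
import Pool.Agent.Helper427.FPT.P_Gam_anti
import Pool.Agent.Helper427.FPT.P_Gam_tors
import Pool.Agent.Helper427.FPT.P_Gam_ind
import Pool.Agent.Helper427.FPM.P_mu_prob
import Pool.Agent.Helper427.FPM.P_sm_cont
import Pool.Agent.Helper427.FPM.P_Jm_sm
import Pool.Agent.Helper427.FPT.Defs2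
import Pool.Agent.Helper427.FPT.P_br_Cc
import Pool.Agent.Helper427.FPT.P_Gam_sub

open scoped Quaternion ContDiff
open MeasureTheory FPM Filter Topology
namespace FPT



theorem th_hyp_mem : ∀ (i : Fin 3) (p q : Fin 6),
    (((p, q, em i) ∈ ([(0,1,2), (1,2,0), (2,0,1), (3,4,5), (4,5,3), (5,3,4)] :
      List (Fin 6 × Fin 6 × Fin 6))) ↔ (p = em (i+1) ∧ q = em (i+2))) ∧
    (((p, q, em i) ∈ ([(1,0,2), (2,1,0), (0,2,1), (4,3,5), (5,4,3), (3,5,4)] :
      List (Fin 6 × Fin 6 × Fin 6))) ↔ (p = em (i+2) ∧ q = em (i+1))) := by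
  decide

theorem th_hyp_ne : ∀ (i : Fin 3), em (i+1) ≠ em (i+2) := by decide

theorem th_hyp_cst (i : Fin 3) (p q : Fin 6) : cst p q (em i) =
    (if p = em (i+1) then (if q = em (i+2) then -2 else 0) else 0) +
    (if p = em (i+2) then (if q = em (i+1) then 2 else 0) else 0) := by
  unfold cst
  rw [if_congr (th_hyp_mem i p q).1 rfl rfl, if_congr (th_hyp_mem i p q).2 rfl rfl]
  have hne := th_hyp_ne i
  by_cases h1 : p = em (i+1)
  · have h2 : p ≠ em (i+2) := h1 ▸ hne
    by_cases h3 : q = em (i+2)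
    · simp [h1, h3, hne]
    · simp [h1, h3, hne]
  · by_cases h2 : p = em (i+2)
    · by_cases h3 : q = em (i+1)
      · simp [h2, h3, hne.symm]
      · simp [h2, h3, hne.symm]
    · simp [h1, h2]

theorem th_hyp_sum (f : Fin 6 → Fin 6 → SmA) (i : Fin 3) :
    ∑ p, ∑ q, f p q * cs (cst p q (em i)) =
      f (em (i+1)) (em (i+2)) * cs (-2) + f (em (i+2)) (em (i+1)) * cs 2 := by
  have h : ∀ p q, f p q * cs (cst p q (em i)) =
      (if p = em (i+1) then (if q = em (i+2) then f p q * cs (-2) else 0) else 0) +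
      (if p = em (i+2) then (if q = em (i+1) then f p q * cs 2 else 0) else 0) := by
    intro p q
    rw [th_hyp_cst]
    have hc : ∀ x y : ℝ, cs (x + y) = cs x + cs y := fun x y => map_add (algebraMap ℝ SmA) x y
    have h0 : cs 0 = 0 := map_zero (algebraMap ℝ SmA)
    rw [hc, mul_add]
    congr 1
    · by_cases h1 : p = em (i+1)
      · rw [if_pos h1, if_pos h1]
        by_cases h2 : q = em (i+2)
        · rw [if_pos h2, if_pos h2]
        · rw [if_neg h2, if_neg h2, h0, mul_zero]
      · rw [if_neg h1, if_neg h1, h0, mul_zero]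
    · by_cases h1 : p = em (i+2)
      · rw [if_pos h1, if_pos h1]
        by_cases h2 : q = em (i+1)
        · rw [if_pos h2, if_pos h2]
        · rw [if_neg h2, if_neg h2, h0, mul_zero]
      · rw [if_neg h1, if_neg h1, h0, mul_zero]
  simp only [h, Finset.sum_add_distrib]
  congr 1
  · rw [Finset.sum_eq_single (em (i+1))]
    · rw [Finset.sum_eq_single (em (i+2))]
      · rw [if_pos rfl, if_pos rfl]
      · intro q _ hq
        rw [if_pos rfl, if_neg hq]
      · intro hq; exact absurd (Finset.mem_univ _) hq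
    · intro p _ hp
      apply Finset.sum_eq_zero
      intro q _
      rw [if_neg hp]
    · intro hq; exact absurd (Finset.mem_univ _) hq
  · rw [Finset.sum_eq_single (em (i+2))]
    · rw [Finset.sum_eq_single (em (i+1))]
      · rw [if_pos rfl, if_pos rfl]
      · intro q _ hq
        rw [if_pos rfl, if_neg hq]
      · intro hq; exact absurd (Finset.mem_univ _) hq
    · intro p _ hp
      apply Finset.sum_eq_zero
      intro q _
      rw [if_neg hp]
    · intro hq; exact absurd (Finset.mem_univ _) hq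

theorem th_hyp (g : Geo) (i : Fin 3) (a b : Fin 6) :
    FPF.nab1 (FD g) (th g i) a b - FPF.nab1 (FD g) (th g i) b a =
      (2 : ℝ) • (th g (i+1) a * th g (i+2) b - th g (i+1) b * th g (i+2) a) := by
  show (eD g a (g.a b (em i)) - ∑ c, Gam g a b c * g.a c (em i)) -
    (eD g b (g.a a (em i)) - ∑ c, Gam g b a c * g.a c (em i)) =
    (2 : ℝ) • (g.a a (em (i+1)) * g.a b (em (i+2)) - g.a b (em (i+1)) * g.a a (em (i+2)))
  have h1 : ∑ c, Gam g a b c * g.a c (em i) - ∑ c, Gam g b a c * g.a c (em i) =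
      br g a b (em i) := by
    rw [← (br_Cc g).1, ← Finset.sum_sub_distrib]
    refine Finset.sum_congr rfl fun c _ => ?_
    rw [← sub_mul, Gam_sub]
  have h2 : br g a b (em i) = eD g a (g.a b (em i)) - eD g b (g.a a (em i)) +
      (g.a a (em (i+1)) * g.a b (em (i+2)) * cs (-2) +
        g.a a (em (i+2)) * g.a b (em (i+1)) * cs 2) := by
    unfold br
    rw [th_hyp_sum (fun p q => g.a a p * g.a b q) i]
  have h3 : cs (-2) = - cs 2 := map_neg (algebraMap ℝ SmA) 2
  have h4 : ∀ X : SmA, (2 : ℝ) • X = cs 2 * X := fun X => Algebra.smul_def 2 X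
  rw [h4]
  rw [h3] at h2
  linear_combination (-1 : SmA) * h1 - h2

end FPT
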