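import Pool.Agent.Helper427.FPF.Defs
import Pool.Agent.Helper427.FPM.Defs
import Pool.Agent.Helper427.FPM.P_sm_basic
import Pool.Agent.Helper427.FPM.P_E_sm
import Pool.Agent.Helper427.FPM.P_E_alg
import Pool.Agent.Helper427.FPT.Defs
import Pool.Agent.Helper427.FPT.P_Gam_anti
import Pool.Agent.Helper427.FPT.P_Gam_tors
import Pool.Agent.Helper427.FPT.P_Gam_ind
import Pool.Agent.Helper427.FPM.P_mu_prob
import Pool.Agent.Helper427.FPM.P_sm_cont
import Pool.Agent.Helper427.FPM.P_Jm_sm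
import Pool.Agent.Helper427.FPT.Defs2
import Pool.Agent.Helper427.FPF.P_pairing
import Pool.Agent.Helper427.FPF.P_nab3_alt
import Pool.Agent.Helper427.FPM.P_finite_rank
import Pool.Agent.Helper427.FPM.P_sm_inv
import Pool.Agent.Helper427.FPM.P_int_E
import Pool.Agent.Helper427.FPT.P_intA_basic
import Pool.Agent.Helper427.FPT.P_divergence
import Pool.Agent.Helper427.FPT.P_q2_props

open scoped Quaternion ContDiff
open MeasureTheory FPM Filter Topology
namespace FPT



theorem weak_coclosed_A (m n0 : ℕ) (P R : Fin n0 → SmA)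
    (h : ∀ x z, kr m x z = ∑ j, ev x (P j) * ev z (R j)) (f : SmA) :
    JA m f = ∑ j, ((Im m)⁻¹ * intA (R j * f)) • P j := by
  apply ext_ev
  intro x
  rw [map_sum]
  have h1 : ev x (JA m f) = (Im m)⁻¹ * ∫ z, kr m x z * ev z f ∂mu := rfl
  rw [h1]
  have h2 : ∫ z, kr m x z * ev z f ∂mu = ∑ j, ev x (P j) * intA (R j * f) := by
    have h3 : (fun z => kr m x z * ev z f) = fun z => ∑ j, ev x (P j) * ev z (R j * f) := by
      funext z
      rw [h, Finset.sum_mul]
      apply Finset.sum_congr rfl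
      intro j _
      rw [map_mul]
      ring
    rw [h3, integral_finset_sum]
    · apply Finset.sum_congr rfl
      intro j _
      rw [integral_const_mul]
      rfl
    · intro j _
      exact (integrable_ev _).const_mul _
  rw [h2, Finset.mul_sum]
  apply Finset.sum_congr rfl
  intro j _
  rw [map_smul, smul_eq_mul]
  ring

theorem weak_coclosed_B (n0 : ℕ) (P : Fin n0 → SmA) (c : Fin n0 → ℝ) :
    q2 (∑ j, c j • P j) ≤ (∑ j, q2 (P j)) * ∑ j, c j ^ 2 := by
  unfold q2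
  have h1 : intA ((∑ j, c j • P j) * (∑ j, c j • P j)) ≤
      intA ((∑ j, c j ^ 2) • ∑ j, P j * P j) := by
    apply intA_basic.2.1
    intro x
    rw [map_mul, map_smul, map_sum, map_sum, smul_eq_mul]
    have h2 : ∀ j, ev x (c j • P j) = c j * ev x (P j) := by
      intro j
      rw [map_smul, smul_eq_mul]
    have h3 : ∀ j, ev x (P j * P j) = ev x (P j) ^ 2 := by
      intro j
      rw [map_mul]
      ring
    rw [Finset.sum_congr rfl fun j _ => h2 j, Finset.sum_congr rfl fun j _ => h3 j, ← pow_two]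
    exact Finset.sum_mul_sq_le_sq_mul_sq _ _ _
  refine h1.trans (le_of_eq ?_)
  rw [map_smul, map_sum, smul_eq_mul, mul_comm]

/-- elementary 2-forms -/
noncomputable def weak_coclosed_be (r : SmA) (b c : Fin 6) (b' c' : Fin 6) : SmA :=
  r * ((if b' = b ∧ c' = c then 1 else 0) - (if b' = c ∧ c' = b then 1 else 0))

theorem weak_coclosed_be_alt (r : SmA) (b c : Fin 6) :
    FPF.Alt2 (weak_coclosed_be r b c) := by
  intro b' c'
  unfold weak_coclosed_be
  have h1 : (b' = b ∧ c' = c) ↔ (c' = c ∧ b' = b) := and_comm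
  have h2 : (b' = c ∧ c' = b) ↔ (c' = b ∧ b' = c) := and_comm
  simp only [h1, h2]
  ring

theorem weak_coclosed_be_sum (r : SmA) (b c : Fin 6) (v : Fin 6 → Fin 6 → SmA) :
    ∑ b', ∑ c', weak_coclosed_be r b c b' c' * v b' c' = r * (v b c - v c b) := by
  unfold weak_coclosed_be
  have h1 : ∀ b' c', r * ((if b' = b ∧ c' = c then (1 : SmA) else 0) -
      (if b' = c ∧ c' = b then 1 else 0)) * v b' c' =
      (if b' = b then (if c' = c then r * v b' c' else 0) else 0) -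
      (if b' = c then (if c' = b then r * v b' c' else 0) else 0) := by
    intro b' c'
    rw [← ite_and, ← ite_and]
    split_ifs <;> ring
  simp only [h1]
  simp only [Finset.sum_sub_distrib]
  rw [mul_sub]
  congr 1
  · rw [Finset.sum_eq_single b]
    · simp
    · intro b' _ hb'
      simp [hb']
    · intro h
      exact absurd (Finset.mem_univ b) h
  · rw [Finset.sum_eq_single c]
    · simp
    · intro b' _ hb'
      simp [hb']
    · intro h
      exact absurd (Finset.mem_univ c) h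

theorem weak_coclosed_C (g : Geo) (ρ ρi : SmA) (hρ : IsDensity g ρ) (hi : ρ * ρi = 1) (R : SmA)
    (u : Ten) (hu : FPF.Alt3 u) (b c : Fin 6) :
    intA (R * FPF.del3 (FD g) u b c) =
      -(1 / 6) * Bf ρ u (FPF.d2 (FD g) (weak_coclosed_be (R * ρi) b c)) := by
  have h1 := FPF.pairing (FD g) (weak_coclosed_be (R * ρi) b c) u hu
  have h2 := divergence g ρ hρ (fun a => (1/2 : ℝ) • ∑ b', ∑ c',
    weak_coclosed_be (R * ρi) b c b' c' * u a b' c')
  rw [← h1, weak_coclosed_be_sum] at h2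
  have h3 : FPF.del3 (FD g) u c b = - FPF.del3 (FD g) u b c := by
    unfold FPF.del3
    rw [← Finset.sum_neg_distrib]
    apply Finset.sum_congr rfl
    intro a _
    exact (FPF.nab3_alt (FD g) u hu a).2 a c b
  rw [h3, mul_add, map_add, mul_smul_comm, mul_smul_comm, map_smul, map_smul] at h2
  have h4 : ρ * (R * ρi * (FPF.del3 (FD g) u b c - -FPF.del3 (FD g) u b c)) =
      (2 : ℝ) • (R * FPF.del3 (FD g) u b c) := by
    calc ρ * (R * ρi * (FPF.del3 (FD g) u b c - -FPF.del3 (FD g) u b c))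
        = (ρ * ρi) * (R * FPF.del3 (FD g) u b c + R * FPF.del3 (FD g) u b c) := by ring
      _ = _ := by rw [hi, one_mul, two_smul]
  rw [h4, map_smul] at h2
  have h5 : Bf ρ u (FPF.d2 (FD g) (weak_coclosed_be (R * ρi) b c)) =
      intA (ρ * ∑ a, ∑ b', ∑ c', FPF.d2 (FD g) (weak_coclosed_be (R * ρi) b c) a b' c' *
        u a b' c') := by
    unfold Bf
    congr 2
    apply Finset.sum_congr rfl
    intro a _
    apply Finset.sum_congr rfl
    intro b' _
    apply Finset.sum_congr rfl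
    intro c' _
    rw [mul_comm]
  rw [h5]
  simp only [smul_eq_mul] at h2
  linarith

/-- mollified divergences of an exact-type 3-form are controlled by finitely many pairings with
exact forms -/
theorem weak_coclosed (g : Geo) (ρ : SmA) (hρ : IsDensity g ρ) (m : ℕ) :
    ∃ (n : ℕ) (β : Fin n → Fin 6 → Fin 6 → SmA) (C : ℝ), 0 ≤ C ∧ (∀ j, FPF.Alt2 (β j)) ∧
      ∀ u : Ten, FPF.Alt3 u → ∑ b, ∑ c, q2 (JA m (FPF.del3 (FD g) u b c)) ≤
        C * ∑ j, (Bf ρ u (FPF.d2 (FD g) (β j))) ^ 2 := by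
  classical
  obtain ⟨n0, P', R', hP, hR, hk⟩ := finite_rank m
  let P : Fin n0 → SmA := fun j => ⟨P' j, hP j⟩
  let R : Fin n0 → SmA := fun j => ⟨R' j, hR j⟩
  have hk' : ∀ x z, kr m x z = ∑ j, ev x (P j) * ev z (R j) := fun x z => hk x z
  have hne : ∀ x, ρ.1 x ≠ 0 := fun x => (hρ.1 x).ne'
  let ρi : SmA := ⟨fun x => (ρ.1 x)⁻¹, sm_inv ρ.1 ρ.2 hne⟩
  have hi : ρ * ρi = 1 := by
    apply ext_ev
    intro x
    rw [map_mul, map_one]
    exact mul_inv_cancel₀ (hne x)
  let e : Fin n0 × Fin 6 × Fin 6 ≃ Fin (Fintype.card (Fin n0 × Fin 6 × Fin 6)) :=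
    Fintype.equivFin _
  let be : Fin n0 × Fin 6 × Fin 6 → Fin 6 → Fin 6 → SmA := fun t =>
    weak_coclosed_be (R t.1 * ρi) t.2.1 t.2.2
  set K : ℝ := ∑ j, q2 (P j) with hK
  have hK0 : 0 ≤ K := Finset.sum_nonneg fun j _ => q2_props.2.1 _
  refine ⟨Fintype.card (Fin n0 × Fin 6 × Fin 6), fun k => be (e.symm k),
    K * ((Im m)⁻¹ ^ 2 * (1 / 36)), by positivity, fun k => weak_coclosed_be_alt _ _ _, ?_⟩
  intro u hu
  have h1 : ∑ k, (Bf ρ u (FPF.d2 (FD g) (be (e.symm k)))) ^ 2 =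
      ∑ t : Fin n0 × Fin 6 × Fin 6, (Bf ρ u (FPF.d2 (FD g) (be t))) ^ 2 :=
    e.symm.sum_comp (fun t => (Bf ρ u (FPF.d2 (FD g) (be t))) ^ 2)
  rw [h1, Fintype.sum_prod_type]
  simp only [Fintype.sum_prod_type]
  have h2 : ∀ b c, q2 (JA m (FPF.del3 (FD g) u b c)) ≤
      K * ((Im m)⁻¹ ^ 2 * (1 / 36)) * ∑ j, (Bf ρ u (FPF.d2 (FD g) (be (j, b, c)))) ^ 2 := by
    intro b c
    rw [weak_coclosed_A m n0 P R hk']
    refine (weak_coclosed_B n0 P _).trans (le_of_eq ?_)
    rw [← hK, mul_assoc K]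
    congr 1
    rw [Finset.mul_sum]
    apply Finset.sum_congr rfl
    intro j _
    rw [weak_coclosed_C g ρ ρi hρ hi (R j) u hu b c]
    show _ = (Im m)⁻¹ ^ 2 * (1 / 36) * (Bf ρ u (FPF.d2 (FD g) (weak_coclosed_be (R j * ρi) b c))) ^ 2
    ring
  calc ∑ b, ∑ c, q2 (JA m (FPF.del3 (FD g) u b c))
      ≤ ∑ b, ∑ c, K * ((Im m)⁻¹ ^ 2 * (1 / 36)) *
          ∑ j, (Bf ρ u (FPF.d2 (FD g) (be (j, b, c)))) ^ 2 :=
        Finset.sum_le_sum fun b _ => Finset.sum_le_sum fun c _ => h2 b c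
    _ = K * ((Im m)⁻¹ ^ 2 * (1 / 36)) *
          ∑ j, ∑ b, ∑ c, (Bf ρ u (FPF.d2 (FD g) (be (j, b, c)))) ^ 2 := by
        simp only [← Finset.mul_sum]
        congr 1
        have h3 : ∀ b, ∑ c, ∑ j, (Bf ρ u (FPF.d2 (FD g) (be (j, b, c)))) ^ 2 =
            ∑ j, ∑ c, (Bf ρ u (FPF.d2 (FD g) (be (j, b, c)))) ^ 2 := fun b => Finset.sum_comm
        rw [Finset.sum_congr rfl fun b _ => h3 b]
        exact Finset.sum_comm

end FPT
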